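import Mathlib

/-!
# PK: counting lemmas for equivalences
-/

set_option autoImplicit false

namespace Pool.Agent.Y388.PK

open Classical Finset

/-- Fibre counting for sets. -/
theorem ncard_fib {α γ : Type*} [Finite α] {S : Set α} {φ : α → γ} {D : Set γ} (hD : D.Finite)
    {k : ℕ} (h1 : ∀ a ∈ S, φ a ∈ D) (h2 : ∀ d ∈ D, {a | a ∈ S ∧ φ a = d}.ncard ≤ k) :
    S.ncard ≤ D.ncard * k := by
  have hS : S.Finite := Set.toFinite S
  rw [Set.ncard_eq_toFinset_card S hS, Set.ncard_eq_toFinset_card D hD, Nat.mul_comm]
  apply Finset.card_le_mul_card_image_of_maps_to (f := φ)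
  · intro a ha
    rw [Set.Finite.mem_toFinset] at ha ⊢
    exact h1 a ha
  · intro d hd
    rw [Set.Finite.mem_toFinset] at hd
    have := h2 d hd
    rw [Set.ncard_eq_toFinset_card _ (Set.toFinite _)] at this
    refine le_trans (Finset.card_le_card ?_) this
    intro a ha
    simp only [Finset.mem_filter, Set.Finite.mem_toFinset] at ha
    simp only [Set.Finite.mem_toFinset, Set.mem_ofPred_eq]
    exact ha

/-- Counting pairs. -/
theorem ncard_prod {α β : Type*} [Finite α] [Finite β] {S : Set (α × β)} {A : Set α} {k : ℕ}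
    (h1 : ∀ p ∈ S, p.1 ∈ A) (h2 : ∀ a ∈ A, {b | (a, b) ∈ S}.ncard ≤ k) :
    S.ncard ≤ A.ncard * k := by
  apply ncard_fib (φ := Prod.fst) (Set.toFinite A) h1
  intro a ha
  refine le_trans ?_ (h2 a ha)
  apply Set.ncard_le_ncard_of_injOn (fun p : α × β => p.2) _ _ (Set.toFinite _)
  · rintro ⟨a', b⟩ ⟨hp, hq⟩
    simp only at hq
    subst hq
    exact hp
  · rintro ⟨a', b⟩ ⟨_, hq⟩ ⟨a'', b'⟩ ⟨_, hq'⟩ hb
    simp only at hq hq' hb
    rw [hq, hq', hb]

/-- Equivalences with prescribed values on `A`. -/
theorem ext_count {α β : Type*} [Fintype α] [Fintype β] (A : Finset α) (f : α → β) :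
    {t : α ≃ β | ∀ a ∈ A, t a = f a}.ncard ≤ (Fintype.card α - A.card).factorial := by
  by_cases hne : {t : α ≃ β | ∀ a ∈ A, t a = f a}.Nonempty
  · obtain ⟨t0, ht0⟩ := hne
    have h1 : {t : α ≃ β | ∀ a ∈ A, t a = f a}.ncard ≤
        {s : Equiv.Perm α | ∀ a, ¬ (a ∉ A) → s a = a}.ncard := by
      apply Set.ncard_le_ncard_of_injOn (fun t : α ≃ β => t.trans t0.symm) _ _ (Set.toFinite _)
      · intro t ht a ha
        rw [not_not] at ha
        simp only [Equiv.trans_apply]
        rw [ht a ha, ← ht0 a ha, Equiv.symm_apply_apply]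
      · intro t _ t' _ htt
        ext a
        have := congrArg (fun s : Equiv.Perm α => t0 (s a)) htt
        simpa using this
    refine h1.trans ?_
    have h2 : {s : Equiv.Perm α | ∀ a, ¬ (a ∉ A) → s a = a}.ncard =
        Fintype.card {s : Equiv.Perm α // ∀ a, ¬ (a ∉ A) → s a = a} := by
      rw [← Nat.card_eq_fintype_card]
      exact (Nat.card_coe_set_eq _).symm
    rw [h2, ← Fintype.card_congr (Equiv.Perm.subtypeEquivSubtypePerm (fun a => a ∉ A)),
      Fintype.card_perm]
    apply Nat.factorial_le
    rw [Fintype.card_subtype_compl]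
    simp
  · rw [Set.not_nonempty_iff_eq_empty] at hne
    rw [hne]
    simp

/-- One prescribed value. -/
theorem count_one {r : ℕ} {Q : Type*} [Fintype Q] (j : Fin r) (q : Q) :
    {e : Fin r ≃ Q | e j = q}.ncard ≤ (r - 1).factorial := by
  have := ext_count (α := Fin r) (β := Q) {j} (fun _ => q)
  simpa using this

/-- Two prescribed values. -/
theorem count_two {r : ℕ} {Q : Type*} [Fintype Q] {j k : Fin r} (hjk : j ≠ k) (q q' : Q) :
    {e : Fin r ≃ Q | e j = q ∧ e k = q'}.ncard ≤ (r - 2).factorial := by
  have := ext_count (α := Fin r) (β := Q) {j, k} (fun i => if i = j then q else q')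
  rw [Finset.card_pair hjk, Fintype.card_fin] at this
  refine le_trans (Set.ncard_le_ncard ?_ (Set.toFinite _)) this
  rintro e ⟨h1, h2⟩ a ha
  rw [Finset.mem_insert, Finset.mem_singleton] at ha
  rcases ha with rfl | rfl
  · simp [h1]
  · simp [h2, hjk.symm]

/-- A value in a given set. -/
theorem count_mem {r : ℕ} {Q : Type*} [Fintype Q] (j : Fin r) (B : Set Q) :
    {e : Fin r ≃ Q | e j ∈ B}.ncard ≤ B.ncard * (r - 1).factorial := by
  apply ncard_fib (φ := fun e : Fin r ≃ Q => e j) (Set.toFinite B)
  · intro e he; exact he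
  · intro q _
    refine le_trans (Set.ncard_le_ncard ?_ (Set.toFinite _)) (count_one j q)
    rintro e ⟨_, h⟩
    exact h

/-- Prescribed values on `A`, and the elements of `X` placed in `P`. -/
theorem gen_count {α β : Type*} [Fintype α] [Fintype β] (A P : Finset α) (X : Finset β)
    (f : α → β) (hAP : Disjoint A P) :
    {t : α ≃ β | (∀ a ∈ A, t a = f a) ∧ ∀ x ∈ X, t.symm x ∈ P}.ncard ≤
      P.card.descFactorial X.card * (Fintype.card α - (A.card + X.card)).factorial := by
  set S := {t : α ≃ β | (∀ a ∈ A, t a = f a) ∧ ∀ x ∈ X, t.symm x ∈ P} with hS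
  by_cases hXe : ∃ t : α ≃ β, t ∈ S
  swap
  · have : S = ∅ := by
      ext t
      simp only [Set.mem_empty_iff_false, iff_false]
      exact fun h => hXe ⟨t, h⟩
    rw [this]; simp
  obtain ⟨t0, ht0⟩ := hXe
  let emb : (α ≃ β) → (X ↪ P) := fun t =>
    if h : ∀ x ∈ X, t.symm x ∈ P then
      ⟨fun x => ⟨t.symm x.1, h x.1 x.2⟩, fun x y hxy => by
        have := congrArg Subtype.val hxy
        exact Subtype.ext (t.symm.injective this)⟩
    else ⟨fun x => ⟨t0.symm x.1, ht0.2 x.1 x.2⟩, fun x y hxy => by
        have := congrArg Subtype.val hxy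
        exact Subtype.ext (t0.symm.injective this)⟩
  have hemb : ∀ t ∈ S, ∀ x : X, ((emb t x : P) : α) = t.symm x := by
    intro t ht x
    simp only [emb]
    rw [dif_pos ht.2]
    rfl
  have key := ncard_fib (S := S) (φ := emb) (D := Set.univ)
    (k := (Fintype.card α - (A.card + X.card)).factorial) (Set.toFinite _)
    (fun _ _ => Set.mem_univ _) (by
      intro g _
      have h3 := ext_count (α := α) (β := β)
        (A ∪ (Finset.univ.image (fun x : X => ((g x : P) : α))))
        (fun a => if h : ∃ x : X, ((g x : P) : α) = a then ((Classical.choose h : X) : β)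
          else f a)
      have hcard : (A ∪ (Finset.univ.image (fun x : X => ((g x : P) : α)))).card =
          A.card + X.card := by
        rw [Finset.card_union_of_disjoint, Finset.card_image_of_injective]
        · simp
        · intro x y hxy
          exact g.injective (Subtype.ext hxy)
        · rw [Finset.disjoint_left]
          intro a ha ha'
          rw [Finset.mem_image] at ha'
          obtain ⟨x, -, hx⟩ := ha'
          rw [← hx] at ha
          exact (Finset.disjoint_left.mp hAP) ha (g x).2
      rw [hcard] at h3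
      refine le_trans (Set.ncard_le_ncard ?_ (Set.toFinite _)) h3
      rintro t ⟨ht, htg⟩ a ha
      have hgx : ∀ x : X, t ((g x : P) : α) = x := by
        intro x
        have := hemb t ht x
        rw [htg] at this
        rw [this, Equiv.apply_symm_apply]
      by_cases hex : ∃ x : X, ((g x : P) : α) = a
      · rw [dif_pos hex]
        have h4 := Classical.choose_spec hex
        have h5 := hgx (Classical.choose hex)
        rw [h4] at h5
        exact h5
      · rw [dif_neg hex]
        rw [Finset.mem_union] at ha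
        rcases ha with ha | ha
        · exact ht.1 a ha
        · rw [Finset.mem_image] at ha
          obtain ⟨x, -, hx⟩ := ha
          exact absurd ⟨x, hx⟩ hex)
  refine key.trans (le_of_eq ?_)
  congr 1
  rw [Set.ncard_univ, Nat.card_eq_fintype_card, Fintype.card_embedding_eq]
  simp

end Pool.Agent.Y388.PK
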