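import Pool.Agent.Y494.PK.Stm
import Pool.Agent.Y388.PK.Cnt

/-!
# PK: Hamiltonian sequences which do not end in `U`
-/

set_option autoImplicit false

namespace Pool.Agent.Y388.PK

open Classical Finset Pool.Agent.Y494.PK

/-- Reversal of the suffix starting at `j`. -/
def rv (r j : ℕ) (s : Fin r) : Fin r :=
  if h : (s : ℕ) < j then s else ⟨j + (r - 1) - s, by omega⟩

theorem rv_val (r j : ℕ) (s : Fin r) :
    ((rv r j s : Fin r) : ℕ) = if (s : ℕ) < j then (s : ℕ) else j + (r - 1) - s := by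
  unfold rv
  split_ifs <;> rfl

theorem rv_rv {r j : ℕ} (hj : j < r) (s : Fin r) : rv r j (rv r j s) = s := by
  apply Fin.ext
  rw [rv_val, rv_val]
  have := s.2
  split_ifs <;> omega

/-- The reversal as a permutation. -/
def rvp (r : ℕ) (j : Fin r) : Equiv.Perm (Fin r) where
  toFun := rv r j
  invFun := rv r j
  left_inv := rv_rv j.2
  right_inv := rv_rv j.2

/-- The modified sequence. -/
def mod {Q : Type} {r : ℕ} (u : Q) (e : Fin r ≃ Q) : Fin r ≃ Q :=
  (rvp r (e.symm u)).trans e

theorem mod_apply {Q : Type} {r : ℕ} (u : Q) (e : Fin r ≃ Q) (s : Fin r) :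
    mod u e s = e (rv r (e.symm u) s) := rfl

theorem mod_last {Q : Type} {r : ℕ} (u : Q) (e : Fin r ≃ Q) {s : Fin r}
    (hs : (s : ℕ) + 1 = r) : mod u e s = u := by
  rw [mod_apply]
  have : rv r (e.symm u) s = e.symm u := by
    apply Fin.ext
    rw [rv_val]
    have := (e.symm u).2
    split_ifs <;> omega
  rw [this, Equiv.apply_symm_apply]

/-- The modification is injective. -/
theorem mod_inj {Q : Type} {r : ℕ} {R : SimpleGraph Q} {A : Set Q} {u : Q}
    (h : ∀ e : Fin r ≃ Q, Ham R e → (∀ j : Fin r, (j : ℕ) = 0 → e j ∈ A) →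
      ∀ j : Fin r, (j : ℕ) + 1 = r → e j ≠ u)
    {e1 e2 : Fin r ≃ Q} (h1 : Ham R e1) (h2 : Ham R e2)
    (k2 : ∀ j : Fin r, (j : ℕ) = 0 → e2 j ∈ A)
    (heq : mod u e1 = mod u e2) : ¬ ((e1.symm u : Fin r) : ℕ) < (e2.symm u : Fin r) := by
  intro hlt
  set j1 := e1.symm u with hj1
  set j2 := e2.symm u with hj2
  refine h (mod u e2) ?_ ?_ ⟨r - 1, by have := j1.2; omega⟩ (by simp only; have := j1.2; omega)
    (mod_last u e2 (by simp only; have := j1.2; omega))
  · intro j k hjk
    by_cases hk : (k : ℕ) = j2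
    · -- use `e1`
      rw [← heq, mod_apply, mod_apply, ← hj1]
      apply SimpleGraph.Adj.symm
      apply h1
      rw [rv_val, rv_val]
      have := j.2
      have := k.2
      split_ifs <;> omega
    · rw [mod_apply, mod_apply, ← hj2]
      by_cases hlt2 : (k : ℕ) < j2
      · apply h2
        rw [rv_val, rv_val]
        split_ifs <;> omega
      · apply SimpleGraph.Adj.symm
        apply h2
        rw [rv_val, rv_val]
        have := j.2
        have := k.2
        split_ifs <;> omega
  · intro j hj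
    rw [mod_apply, ← hj2]
    have : rv r j2 j = j := by
      apply Fin.ext
      rw [rv_val]
      split_ifs <;> omega
    rw [this]
    exact k2 j hj

theorem mod_injOn {Q : Type} {r : ℕ} {R : SimpleGraph Q} {A : Set Q} {u : Q}
    (h : ∀ e : Fin r ≃ Q, Ham R e → (∀ j : Fin r, (j : ℕ) = 0 → e j ∈ A) →
      ∀ j : Fin r, (j : ℕ) + 1 = r → e j ≠ u) :
    Set.InjOn (mod u) {e : Fin r ≃ Q | Ham R e ∧ ∀ j : Fin r, (j : ℕ) = 0 → e j ∈ A} := by
  rintro e1 ⟨h1, k1⟩ e2 ⟨h2, k2⟩ heq
  have a1 := mod_inj h h1 h2 k2 heq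
  have a2 := mod_inj h h2 h1 k1 heq.symm
  have hj : e1.symm u = e2.symm u := Fin.ext (by omega)
  ext s
  have := congrArg (fun e : Fin r ≃ Q => e (rv r (e1.symm u) s)) heq
  simp only [mod_apply] at this
  rw [← hj, rv_rv (e1.symm u).2] at this
  exact this

theorem e2 : S_E2 := by
  intro Q _ r R A U hr hQ hU h
  obtain ⟨u, hu⟩ := hU
  refine le_trans (Set.ncard_le_ncard_of_injOn (mod u) ?_
    (mod_injOn (fun e he hA j hj heq => h e he hA j hj (heq ▸ hu))) (Set.toFinite _))
    (count_one (Q := Q) (⟨r - 1, by omega⟩ : Fin r) u)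
  intro e _
  exact mod_last u e (by simp only; omega)

theorem e2b : S_E2b := by
  intro Q _ r R a u hr hQ hau h
  have hne : (⟨0, by omega⟩ : Fin r) ≠ ⟨r - 1, by omega⟩ := by
    intro heq
    have := congrArg Fin.val heq
    simp only at this
    omega
  have hset : {e : Fin r ≃ Q | Ham R e ∧ ∀ j : Fin r, (j : ℕ) = 0 → e j = a} =
      {e : Fin r ≃ Q | Ham R e ∧ ∀ j : Fin r, (j : ℕ) = 0 → e j ∈ ({a} : Set Q)} := by
    simp
  rw [hset]
  refine le_trans (Set.ncard_le_ncard_of_injOn (mod u) ?_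
    (mod_injOn (fun e he hA j hj => h e he (by simpa using hA) j hj)) (Set.toFinite _))
    (count_two (Q := Q) hne a u)
  rintro e ⟨_, he⟩
  refine ⟨?_, mod_last u e (by simp only; omega)⟩
  rw [mod_apply]
  have h0 : e ⟨0, by omega⟩ = a := by simpa using he ⟨0, by omega⟩ rfl
  have hj : 1 ≤ ((e.symm u : Fin r) : ℕ) := by
    rcases Nat.eq_zero_or_pos ((e.symm u : Fin r) : ℕ) with h1 | h1
    · exfalso
      have : e.symm u = ⟨0, by omega⟩ := Fin.ext h1
      rw [← this, Equiv.apply_symm_apply] at h0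
      exact hau h0.symm
    · exact h1
  have : rv r (e.symm u) ⟨0, by omega⟩ = ⟨0, by omega⟩ := by
    apply Fin.ext
    rw [rv_val]
    simp only
    split_ifs <;> omega
  rw [this, h0]

/-- `LeadS` gives a Hamiltonian sequence. -/
theorem leadS_ham {Q : Type} {r : ℕ} {R : SimpleGraph Q} {T : Fin r → Set Q} {A : Set Q}
    (hC : Clq R T) {e : Fin r ≃ Q} {t : Equiv.Perm (Fin r)} (h : LeadS T A e t) : Ham R e := by
  intro j k hjk
  refine hC (t j) _ (h.2.1 j) _ (h.2.2 j k hjk) ?_
  intro heq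
  have := e.injective heq
  rw [this] at hjk
  omega

theorem sc2 (h2 : S_E2) : S_SC2 := by
  intro Q _ r R A U T hr hQ hC hU h
  have := h2 Q r R A U hr hQ hU h
  refine le_trans (ncard_prod
    (A := {e : Fin r ≃ Q | Ham R e ∧ ∀ j : Fin r, (j : ℕ) = 0 → e j ∈ A}) (k := r.factorial)
    ?_ ?_) (Nat.mul_le_mul_right _ this)
  · rintro ⟨e, t⟩ hp
    exact ⟨leadS_ham hC hp, hp.1⟩
  · intro e _
    refine le_trans (Set.ncard_le_ncard (Set.subset_univ _) (Set.toFinite _)) (le_of_eq ?_)
    rw [Set.ncard_univ, Nat.card_eq_fintype_card, Fintype.card_perm, Fintype.card_fin]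

theorem sc1 : S_SC1 := by
  intro Q _ r A T hr hQ hor
  have hfac : r.factorial = r * (r - 1).factorial := (Nat.mul_factorial_pred (by omega)).symm
  rcases hor with hA | hT
  · have h1 : A.ncard ≤ r - 1 := by
      have : A.ncard < r := by
        rw [← hQ, ← Nat.card_eq_fintype_card, ← Set.ncard_univ]
        exact Set.ncard_lt_ncard (Set.ssubset_univ_iff.mpr hA) (Set.toFinite _)
      omega
    have h2 : MS T A ≤ (A.ncard * (r - 1).factorial) * r.factorial := by
      refine le_trans (ncard_prod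
        (A := {e : Fin r ≃ Q | e ⟨0, by omega⟩ ∈ A}) (k := r.factorial) ?_ ?_)
        (Nat.mul_le_mul_right _ (count_mem _ A))
      · rintro ⟨e, t⟩ hp
        exact hp.1 _ rfl
      · intro e _
        refine le_trans (Set.ncard_le_ncard (Set.subset_univ _) (Set.toFinite _)) (le_of_eq ?_)
        rw [Set.ncard_univ, Nat.card_eq_fintype_card, Fintype.card_perm, Fintype.card_fin]
    calc r * MS T A ≤ r * (((r - 1) * (r - 1).factorial) * r.factorial) := by
          refine Nat.mul_le_mul_left _ (h2.trans ?_)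
          gcongr
      _ = (r - 1) * r.factorial ^ 2 := by
          rw [hfac]; ring
  · have x : Fin r := ⟨0, by omega⟩
    obtain ⟨m, hm⟩ : ∃ m, m ∉ T x := by
      by_contra hcon
      push Not at hcon
      exact hT x (Set.eq_univ_of_forall hcon)
    have hB : ({q : Q | q ≠ m} : Set Q).ncard = r - 1 := by
      have h3 : ({q : Q | q ≠ m} : Set Q) = {m}ᶜ := by ext q; simp
      rw [h3, Set.ncard_compl, Set.ncard_singleton, Nat.card_eq_fintype_card, hQ]
    have h2 : MS T A ≤ r.factorial * ((r - 1) * (r - 1).factorial) := by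
      have h3 : MS T A ≤ {p : Equiv.Perm (Fin r) × (Fin r ≃ Q) | LeadS T A p.2 p.1}.ncard := by
        unfold MS
        apply Set.ncard_le_ncard_of_injOn (fun p => (p.2, p.1)) _ _ (Set.toFinite _)
        · rintro ⟨e, t⟩ hp; exact hp
        · rintro ⟨e, t⟩ _ ⟨e', t'⟩ _ heq
          simp only [Prod.mk.injEq] at heq ⊢
          exact ⟨heq.2, heq.1⟩
      refine h3.trans (le_trans (ncard_prod (A := Set.univ)
        (k := (r - 1) * (r - 1).factorial) ?_ ?_) (le_of_eq ?_))
      · intro p _; exact Set.mem_univ _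
      · intro t _
        have h4 := count_mem (t.symm x) ({q : Q | q ≠ m} : Set Q)
        rw [hB] at h4
        refine le_trans (Set.ncard_le_ncard ?_ (Set.toFinite _)) h4
        intro e he heq
        have h5 := he.2.1 (t.symm x)
        rw [heq, Equiv.apply_symm_apply] at h5
        exact hm h5
      · rw [Set.ncard_univ, Nat.card_eq_fintype_card, Fintype.card_perm, Fintype.card_fin]
    calc r * MS T A ≤ r * (r.factorial * ((r - 1) * (r - 1).factorial)) :=
          Nat.mul_le_mul_left _ h2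
      _ = (r - 1) * r.factorial ^ 2 := by
          rw [hfac]; ring

end Pool.Agent.Y388.PK
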