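import Pool.Agent.Y494.PK.Stm

/-!
# PK: counting the directed paths of rich graphs
-/

set_option autoImplicit false

namespace Pool.Agent.Y388.PK

open Classical Pool.Agent.Y494.PK

/-- Injective functions into a set. -/
theorem inj_count {V : Type} [Finite V] (B : Set V) (k : ℕ) :
    {f : Fin k → V | Function.Injective f ∧ ∀ j, f j ∈ B}.ncard ≤ B.ncard.descFactorial k := by
  have : Fintype B := Fintype.ofFinite B
  have h1 : {f : Fin k → V | Function.Injective f ∧ ∀ j, f j ∈ B} ⊆
      (fun e : Fin k ↪ B => (fun j => ((e j : B) : V))) '' Set.univ := by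
    rintro f ⟨hf, hB⟩
    refine ⟨⟨fun j => ⟨f j, hB j⟩, fun i j hij => hf (congrArg Subtype.val hij)⟩,
      Set.mem_univ _, rfl⟩
  refine (Set.ncard_le_ncard h1 (Set.toFinite _)).trans ((Set.ncard_image_le
    (Set.toFinite _)).trans (le_of_eq ?_))
  rw [Set.ncard_univ, Nat.card_eq_fintype_card, Fintype.card_embedding_eq, Fintype.card_fin,
    ← Nat.card_eq_fintype_card, Nat.card_coe_set_eq]

section

variable {V : Type} [Fintype V] {G : SimpleGraph V} {k : ℕ} {C : Finset V} {v : V}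

/-- The situation. -/
structure Sit (G : SimpleGraph V) (k : ℕ) (C : Finset V) (v : V) : Prop where
  hC : C.card = k
  hv : v ∉ C
  adj : ∀ c ∈ C, G.Adj v c
  H1 : ∀ m, G.Adj v m → m ∉ C → ∀ y, G.Adj m y → y = v
  H2 : ∀ b, b ∉ C → b ≠ v → (∃ c ∈ C, G.Adj b c) → ∀ y, G.Adj b y → y ∈ C

/-- Leaves at `v`. -/
def MS2 (G : SimpleGraph V) (C : Finset V) (v : V) : Set V := {x | G.Adj v x ∧ x ∉ C}

/-- Lows. -/
def BS2 (G : SimpleGraph V) (C : Finset V) (v : V) : Set V :=
  {b | b ∉ C ∧ b ≠ v ∧ ∃ c ∈ C, G.Adj b c}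

/-- The rest. -/
def RS (G : SimpleGraph V) (C : Finset V) (v : V) : Set V :=
  {x | x ∉ C ∧ x ≠ v ∧ x ∉ MS2 G C v ∧ x ∉ BS2 G C v}

omit [Fintype V] in
theorem rs_closed (hS : Sit G k C v) {x y : V} (hx : x ∈ RS G C v) (hxy : G.Adj x y) :
    y ∈ RS G C v := by
  obtain ⟨h1, h2, h3, h4⟩ := hx
  have hyC : y ∉ C := fun hy => h4 ⟨h1, h2, y, hy, hxy⟩
  have hyv : y ≠ v := by
    rintro rfl
    exact h3 ⟨hxy.symm, h1⟩
  refine ⟨hyC, hyv, ?_, ?_⟩
  · rintro ⟨k1, k2⟩
    exact h2 (hS.H1 y k1 k2 x hxy.symm)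
  · rintro ⟨k1, k2, k3⟩
    exact h1 (hS.H2 y k1 k2 k3 x hxy.symm)

omit [Fintype V] in
/-- Paths stay inside or outside of `R`. -/
theorem all_or (hS : Sit G k C v) {u w : Fin (k + 1) → V} (hp : IsDP G (k + 1) u w) :
    (∀ j, u j ∈ RS G C v ∧ w j ∈ RS G C v) ∨ (∀ j, u j ∉ RS G C v ∧ w j ∉ RS G C v) := by
  by_cases h0 : u 0 ∈ RS G C v
  · left
    intro j
    induction j using Fin.induction with
    | zero => exact ⟨h0, rs_closed hS h0 (hp.mat 0)⟩
    | succ j ih =>
      have h1 : u j.succ ∈ RS G C v := rs_closed hS ih.2 (hp.con j.castSucc j.succ (by simp))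
      exact ⟨h1, rs_closed hS h1 (hp.mat _)⟩
  · right
    intro j
    induction j using Fin.induction with
    | zero => exact ⟨h0, fun h => h0 (rs_closed hS h (hp.mat 0).symm)⟩
    | succ j ih =>
      have h1 : u j.succ ∉ RS G C v := fun h =>
        ih.2 (rs_closed hS h (hp.con j.castSucc j.succ (by simp)).symm)
      exact ⟨h1, fun h => h1 (rs_closed hS h (hp.mat _).symm)⟩

/-- Hubs. -/
noncomputable def KS (C : Finset V) (v : V) : Finset V := insert v C

omit [Fintype V] in
theorem not_both (hS : Sit G k C v) {x y : V} (hx : x ∉ RS G C v)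
    (hxy : G.Adj x y) (hxK : x ∉ KS C v) : y ∈ KS C v := by
  rw [KS, Finset.mem_insert, not_or] at hxK
  rw [KS, Finset.mem_insert]
  have h1 : x ∈ MS2 G C v ∨ x ∈ BS2 G C v := by
    by_contra hcon
    push Not at hcon
    exact hx ⟨hxK.2, hxK.1, hcon.1, hcon.2⟩
  rcases h1 with ⟨h2, h3⟩ | ⟨h2, h3, h4⟩
  · exact Or.inl (hS.H1 x h2 h3 y hxy)
  · exact Or.inr (hS.H2 x h2 h3 h4 y hxy)

omit [Fintype V] in
/-- Exactly one hub in each pair, and all hubs are used. -/
theorem one_hub (hS : Sit G k C v) {u w : Fin (k + 1) → V} (hp : IsDP G (k + 1) u w)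
    (hR : ∀ j, u j ∉ RS G C v ∧ w j ∉ RS G C v) :
    (∀ j, ¬ (u j ∈ KS C v ∧ w j ∈ KS C v)) ∧ (∃ j, u j = v ∨ w j = v) := by
  have hone : ∀ j, u j ∉ KS C v → w j ∈ KS C v := fun j h =>
    not_both hS (hR j).1 (hp.mat j) h
  have hcard : Fintype.card (Fin (k + 1)) = (KS C v).card := by
    rw [KS, Finset.card_insert_of_notMem hS.hv, hS.hC, Fintype.card_fin]
  let φ : Fin (k + 1) → KS C v := fun j =>
    if h : u j ∈ KS C v then ⟨u j, h⟩ else ⟨w j, hone j h⟩
  have hφ : ∀ j, (φ j : V) = u j ∧ u j ∈ KS C v ∨ (φ j : V) = w j ∧ u j ∉ KS C v := by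
    intro j
    by_cases h : u j ∈ KS C v
    · left; simp only [φ]; rw [dif_pos h]; exact ⟨rfl, h⟩
    · right; simp only [φ]; rw [dif_neg h]; exact ⟨rfl, h⟩
  have hinj : Function.Injective φ := by
    intro i j hij
    have hij' : (φ i : V) = φ j := congrArg Subtype.val hij
    rcases hφ i with ⟨h1, _⟩ | ⟨h1, _⟩ <;> rcases hφ j with ⟨h2, _⟩ | ⟨h2, _⟩
    · exact hp.uinj (by rw [← h1, ← h2, hij'])
    · exact absurd (by rw [← h1, ← h2, hij']) (hp.uw i j)
    · exact absurd (by rw [← h1, ← h2, hij']) (hp.uw j i)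
    · exact hp.winj (by rw [← h1, ← h2, hij'])
  have hsurj : Function.Surjective φ :=
    ((Fintype.bijective_iff_injective_and_card φ).mpr ⟨hinj, by
      rw [hcard, Fintype.card_coe]⟩).2
  constructor
  · rintro j ⟨h1, h2⟩
    obtain ⟨i, hi⟩ := hsurj ⟨w j, h2⟩
    have hi' : (φ i : V) = w j := congrArg Subtype.val hi
    rcases hφ i with ⟨h3, _⟩ | ⟨h3, h4⟩
    · exact hp.uw i j (by rw [← h3, hi'])
    · have : i = j := hp.winj (by rw [← h3, hi'])
      rw [this] at h4
      exact h4 h1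
  · obtain ⟨i, hi⟩ := hsurj ⟨v, Finset.mem_insert_self _ _⟩
    have hi' : (φ i : V) = v := congrArg Subtype.val hi
    rcases hφ i with ⟨h3, _⟩ | ⟨h3, _⟩
    · exact ⟨i, Or.inl (by rw [← h3, hi'])⟩
    · exact ⟨i, Or.inr (by rw [← h3, hi'])⟩

/-- Paths outside of `R` which start with a leaf. -/
def D1 (G : SimpleGraph V) (k : ℕ) (C : Finset V) (v : V) :
    Set ((Fin (k + 1) → V) × (Fin (k + 1) → V)) :=
  {p | IsDP G (k + 1) p.1 p.2 ∧ (∀ j, p.1 j ∉ RS G C v ∧ p.2 j ∉ RS G C v) ∧ p.2 0 = v ∧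
    p.1 0 ∈ MS2 G C v}

omit [Fintype V] in
theorem d1_struct (hS : Sit G k C v) {u w : Fin (k + 1) → V} (h : (u, w) ∈ D1 G k C v) :
    ∀ j : Fin k, u j.succ ∈ (↑C : Set V) ∧ w j.succ ∈ BS2 G C v := by
  obtain ⟨hp, hR, hw0, hu0⟩ := h
  simp only at hp hR hw0 hu0
  have hone := (one_hub hS hp hR).1
  have key : ∀ j : Fin k, u j.succ ∈ (↑C : Set V) → w j.succ ∈ BS2 G C v := by
    intro j hj
    have h1 : w j.succ ∉ KS C v := fun h =>
      hone j.succ ⟨Finset.mem_insert_of_mem hj, h⟩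
    rw [KS, Finset.mem_insert, not_or] at h1
    by_contra hcon
    have h2 : w j.succ ∈ MS2 G C v := by
      by_contra h3
      exact (hR j.succ).2 ⟨h1.2, h1.1, h3, hcon⟩
    have h3 := hS.H1 _ h2.1 h2.2 _ (hp.mat j.succ).symm
    exact hp.uw j.succ 0 (by rw [h3, hw0])
  have key2 : ∀ j : Fin (k + 1), (h : 0 < (j : ℕ)) → u j ∈ (↑C : Set V) ∧ w j ∈ BS2 G C v := by
    intro j
    induction j using Fin.induction with
    | zero => intro h; exact absurd h (lt_irrefl _)
    | succ j ih =>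
      intro _
      have hC : u j.succ ∈ (↑C : Set V) := by
        by_cases hj : (j : ℕ) = 0
        · have hj0 : j.castSucc = 0 := Fin.ext (by simpa using hj)
          have h1 : G.Adj v (u j.succ) := by
            have := hp.con j.castSucc j.succ (by simp)
            rw [hj0, hw0] at this
            exact this
          by_contra h2
          have h3 := hS.H1 _ h1 (by simpa using h2) _ (hp.mat j.succ)
          have h4 : j.succ = 0 := hp.winj (by rw [h3, hw0])
          exact Fin.succ_ne_zero j h4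
        · have h1 := (ih (by simp only [Fin.val_castSucc]; omega)).2
          have h2 := hp.con j.castSucc j.succ (by simp)
          simpa using hS.H2 _ h1.1 h1.2.1 h1.2.2 _ h2
      exact ⟨hC, key j hC⟩
  intro j
  exact key2 j.succ (by simp)

theorem d1_count (hS : Sit G k C v) : (D1 G k C v).ncard ≤
    (MS2 G C v).ncard * (k.factorial * (BS2 G C v).ncard.descFactorial k) := by
  have h1 : (D1 G k C v).ncard ≤ ((MS2 G C v) ×ˢ
      ({f : Fin k → V | Function.Injective f ∧ ∀ j, f j ∈ (↑C : Set V)} ×ˢ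
        {f : Fin k → V | Function.Injective f ∧ ∀ j, f j ∈ BS2 G C v})).ncard := by
    apply Set.ncard_le_ncard_of_injOn
      (fun p : (Fin (k + 1) → V) × (Fin (k + 1) → V) =>
        (p.1 0, ((fun j : Fin k => p.1 j.succ), (fun j : Fin k => p.2 j.succ)))) _ _
      (Set.toFinite _)
    · rintro ⟨u, w⟩ hp
      have hst := d1_struct hS hp
      obtain ⟨hp1, hR, hw0, hu0⟩ := hp
      refine ⟨hu0, ⟨?_, fun j => (hst j).1⟩, ?_, fun j => (hst j).2⟩
      · intro i j hij
        exact Fin.succ_injective _ (hp1.uinj hij)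
      · intro i j hij
        exact Fin.succ_injective _ (hp1.winj hij)
    · rintro ⟨u, w⟩ ⟨_, _, hw0, _⟩ ⟨u', w'⟩ ⟨_, _, hw0', _⟩ heq
      simp only [Prod.mk.injEq] at heq hw0 hw0' ⊢
      obtain ⟨e1, e2, e3⟩ := heq
      constructor
      · funext j
        refine Fin.cases e1 (fun i => congrFun e2 i) j
      · funext j
        refine Fin.cases (by rw [hw0, hw0']) (fun i => congrFun e3 i) j
  rw [Set.ncard_prod, Set.ncard_prod] at h1
  refine h1.trans (Nat.mul_le_mul_left _ (Nat.mul_le_mul ?_ (inj_count _ _)))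
  refine (inj_count _ _).trans (le_of_eq ?_)
  rw [Set.ncard_coe_finset, hS.hC, Nat.descFactorial_self]

theorem ex2' (hS : Sit G k C v) :
    ∃ (R : Set V) (m : ℕ), m + (k + 1) + R.ncard ≤ Fintype.card V ∧
      dg G v + R.ncard ≤ Fintype.card V ∧
      (DP G (k + 1)).ncard ≤ 2 * PP (k + 1) (Fintype.card V - R.ncard) m +
        (DP (G.induce R) (k + 1)).ncard := by
  refine ⟨RS G C v, (MS2 G C v).ncard, ?_⟩
  have hvM : v ∉ MS2 G C v := fun h => G.loopless.irrefl v h.1
  have dMB : Disjoint (MS2 G C v) (BS2 G C v) := by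
    rw [Set.disjoint_left]
    rintro x ⟨h1, h2⟩ ⟨h3, h4, h5⟩
    exact hS.hv (hS.H2 x h3 h4 h5 v h1.symm)
  have dKM : Disjoint (↑(KS C v) : Set V) (MS2 G C v) := by
    rw [Set.disjoint_left]
    intro x hx hM
    rw [Finset.mem_coe, KS, Finset.mem_insert] at hx
    rcases hx with rfl | hx
    · exact hvM hM
    · exact hM.2 hx
  have dKMB : Disjoint (↑(KS C v) ∪ MS2 G C v : Set V) (BS2 G C v) := by
    rw [Set.disjoint_left]
    rintro x (hx | hx) hB
    · rw [Finset.mem_coe, KS, Finset.mem_insert] at hx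
      rcases hx with rfl | hx
      · exact hB.2.1 rfl
      · exact hB.1 hx
    · exact Set.disjoint_left.mp dMB hx hB
  have dR : Disjoint ((↑(KS C v) ∪ MS2 G C v) ∪ BS2 G C v : Set V) (RS G C v) := by
    rw [Set.disjoint_left]
    rintro x ((hx | hx) | hx) hR
    · rw [Finset.mem_coe, KS, Finset.mem_insert] at hx
      rcases hx with rfl | hx
      · exact hR.2.1 rfl
      · exact hR.1 hx
    · exact hR.2.2.1 hx
    · exact hR.2.2.2 hx
  have hall : ((↑(KS C v) ∪ MS2 G C v) ∪ BS2 G C v : Set V) ∪ RS G C v = Set.univ := by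
    rw [Set.eq_univ_iff_forall]
    intro x
    by_cases h1 : x ∈ KS C v
    · exact Or.inl (Or.inl (Or.inl h1))
    · by_cases h2 : x ∈ MS2 G C v
      · exact Or.inl (Or.inl (Or.inr h2))
      · by_cases h3 : x ∈ BS2 G C v
        · exact Or.inl (Or.inr h3)
        · rw [KS, Finset.mem_insert, not_or] at h1
          exact Or.inr ⟨h1.2, h1.1, h2, h3⟩
  have hKc : (↑(KS C v) : Set V).ncard = k + 1 := by
    rw [Set.ncard_coe_finset, KS, Finset.card_insert_of_notMem hS.hv, hS.hC]
  have hsum : k + 1 + (MS2 G C v).ncard + (BS2 G C v).ncard + (RS G C v).ncard =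
      Fintype.card V := by
    rw [← hKc, ← Set.ncard_union_eq dKM, ← Set.ncard_union_eq dKMB, ← Set.ncard_union_eq dR,
      hall, Set.ncard_univ, Nat.card_eq_fintype_card]
  have hdg : dg G v = k + (MS2 G C v).ncard := by
    have h1 : G.neighborSet v = ↑C ∪ MS2 G C v := by
      ext x
      rw [SimpleGraph.mem_neighborSet]
      constructor
      · intro h
        by_cases hx : x ∈ C
        · exact Or.inl hx
        · exact Or.inr ⟨h, hx⟩
      · rintro (h | h)
        · exact hS.adj x h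
        · exact h.1
    have h2 : Disjoint (↑C : Set V) (MS2 G C v) := by
      rw [Set.disjoint_left]
      intro x hx hM
      exact hM.2 hx
    unfold dg
    rw [h1, Set.ncard_union_eq h2, Set.ncard_coe_finset, hS.hC]
  refine ⟨by omega, by omega, ?_⟩
  -- the paths inside `R`
  set DR : Set ((Fin (k + 1) → V) × (Fin (k + 1) → V)) :=
    {p | IsDP G (k + 1) p.1 p.2 ∧ ∀ j, p.1 j ∈ RS G C v ∧ p.2 j ∈ RS G C v} with hDR
  have hDRc : DR.ncard ≤ (DP (G.induce (RS G C v)) (k + 1)).ncard := by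
    have : DR ⊆ (fun p : (Fin (k + 1) → RS G C v) × (Fin (k + 1) → RS G C v) =>
        ((fun j => (p.1 j : V)), (fun j => (p.2 j : V)))) '' DP (G.induce (RS G C v)) (k + 1) := by
      rintro ⟨u, w⟩ ⟨hp, hR⟩
      refine ⟨(fun j => ⟨u j, (hR j).1⟩, fun j => ⟨w j, (hR j).2⟩), ?_, rfl⟩
      exact ⟨fun i j hij => hp.uinj (congrArg Subtype.val hij),
        fun i j hij => hp.winj (congrArg Subtype.val hij),
        fun i j hij => hp.uw i j (congrArg Subtype.val hij),
        fun i => hp.mat i, fun i j hij => hp.con i j hij⟩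
    exact (Set.ncard_le_ncard this (Set.toFinite _)).trans (Set.ncard_image_le (Set.toFinite _))
  -- reversal
  let rev : (Fin (k + 1) → V) × (Fin (k + 1) → V) → (Fin (k + 1) → V) × (Fin (k + 1) → V) :=
    fun p => (p.2 ∘ Fin.rev, p.1 ∘ Fin.rev)
  have hrev : ∀ p, rev (rev p) = p := by
    rintro ⟨u, w⟩
    simp only [rev, Prod.mk.injEq]
    constructor <;> (funext j; simp)
  have hsub : DP G (k + 1) ⊆ (DR ∪ D1 G k C v) ∪ rev '' (D1 G k C v) := by
    rintro ⟨u, w⟩ hp
    have hp : IsDP G (k + 1) u w := hp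
    rcases all_or hS hp with hR | hR
    · exact Or.inl (Or.inl ⟨hp, hR⟩)
    · obtain ⟨hone, j, hj⟩ := one_hub hS hp hR
      have hvK : v ∈ KS C v := Finset.mem_insert_self _ _
      rcases hj with hj | hj
      · right
        -- `u j = v`
        have h1 : w j ∉ KS C v := fun h => hone j ⟨by rw [hj]; exact hvK, h⟩
        rw [KS, Finset.mem_insert, not_or] at h1
        have hM : w j ∈ MS2 G C v := ⟨by have := hp.mat j; rw [hj] at this; exact this, h1.2⟩
        have hjl : j = Fin.last k := by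
          by_contra hne
          have hlt : (j : ℕ) < k := by
            have := j.isLt
            have h2 : (j : ℕ) ≠ k := fun h => hne (Fin.ext h)
            omega
          have h3 := hS.H1 _ hM.1 hM.2 _ (hp.con j ⟨(j : ℕ) + 1, by omega⟩ rfl)
          have h4 := congrArg Fin.val (hp.uinj (h3.trans hj.symm))
          simp only at h4
          omega
        subst hjl
        refine ⟨rev (u, w), ⟨?_, ?_, ?_, ?_⟩, hrev _⟩
        · refine ⟨hp.winj.comp Fin.rev_injective, hp.uinj.comp Fin.rev_injective,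
            fun i j => (hp.uw _ _).symm, fun i => (hp.mat _).symm, fun i j hij => ?_⟩
          refine (hp.con _ _ ?_).symm
          simp only [Fin.val_rev]
          have := j.isLt
          omega
        · intro i
          exact ⟨(hR _).2, (hR _).1⟩
        · simp only [rev, Function.comp_apply, Fin.rev_zero]
          exact hj
        · simp only [rev, Function.comp_apply, Fin.rev_zero]
          exact hM
      · -- `w j = v`
        have h1 : u j ∉ KS C v := fun h => hone j ⟨h, by rw [hj]; exact hvK⟩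
        rw [KS, Finset.mem_insert, not_or] at h1
        have hM : u j ∈ MS2 G C v :=
          ⟨by have := (hp.mat j).symm; rw [hj] at this; exact this, h1.2⟩
        have hj0 : j = 0 := by
          by_contra hne
          have hlt : 0 < (j : ℕ) := by
            rcases Nat.eq_zero_or_pos (j : ℕ) with h | h
            · exact absurd (Fin.ext h) hne
            · exact h
          have h3 := hS.H1 _ hM.1 hM.2 _ (hp.con ⟨(j : ℕ) - 1, by have := j.isLt; omega⟩ j
            (by simp only; omega)).symm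
          have h4 := congrArg Fin.val (hp.winj (h3.trans hj.symm))
          simp only at h4
          omega
        subst hj0
        exact Or.inl (Or.inr ⟨hp, hR, hj, hM⟩)
  have hcount : (DP G (k + 1)).ncard ≤ (DR.ncard + (D1 G k C v).ncard) + (D1 G k C v).ncard := by
    refine (Set.ncard_le_ncard hsub (Set.toFinite _)).trans ((Set.ncard_union_le _ _).trans ?_)
    exact Nat.add_le_add (Set.ncard_union_le _ _) (Set.ncard_image_le (Set.toFinite _))
  have hD1 := d1_count hS
  have hPP : PP (k + 1) (Fintype.card V - (RS G C v).ncard) (MS2 G C v).ncard =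
      (MS2 G C v).ncard * (k.factorial * (BS2 G C v).ncard.descFactorial k) := by
    unfold PP
    rw [show Fintype.card V - (RS G C v).ncard - (k + 1) - (MS2 G C v).ncard =
      (BS2 G C v).ncard by omega, Nat.add_sub_cancel]
    ring
  rw [hPP]
  omega

end

theorem ex2 : ∀ (V : Type) [Fintype V] (G : SimpleGraph V) (l : ℕ), 2 ≤ l →
    ∀ (C : Finset V) (v : V), C.card = l - 1 → v ∉ C → (∀ c ∈ C, G.Adj v c) →
    (∀ m, G.Adj v m → m ∉ C → ∀ y, G.Adj m y → y = v) →
    (∀ b, b ∉ C → b ≠ v → (∃ c ∈ C, G.Adj b c) → ∀ y, G.Adj b y → y ∈ C) →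
    ∃ (R : Set V) (m : ℕ), m + l + R.ncard ≤ Fintype.card V ∧
      dg G v + R.ncard ≤ Fintype.card V ∧
      (DP G l).ncard ≤ 2 * PP l (Fintype.card V - R.ncard) m + (DP (G.induce R) l).ncard := by
  intro V _ G l hl C v hC hv hadj H1 H2
  obtain ⟨k, rfl⟩ : ∃ k, l = k + 1 := ⟨l - 1, by omega⟩
  exact ex2' (k := k) ⟨by omega, hv, hadj, H1, H2⟩

end Pool.Agent.Y388.PK
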