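import Pool.Agent.Y388.PK.Ex2
import Pool.Agent.Y306.PK.EX1

/-!
# PK: structure of rich graphs
-/

set_option autoImplicit false

namespace Pool.Agent.Y388.PK

open Pool.Agent.Y494.PK

theorem exact : S_EXACT := by
  intro V _ G l hl hN C v hC hv hadj hW hd
  obtain ⟨h1, h2⟩ := Pool.Agent.Y306.PK.ex1 V G l hl hN C v hC hv hadj hW hd
  exact ex2 V G l hl C v hC hv hadj h1 h2

end Pool.Agent.Y388.PK
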