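import Pool.Agent.Y388.PK.E2

/-!
# PK: the second kind, cluster at the end
-/

set_option autoImplicit false

namespace Pool.Agent.Y388.PK

open Classical Finset Pool.Agent.Y494.PK

section

variable {Q : Type} [Fintype Q] {r : ℕ} {R : SimpleGraph Q} {U : Set Q} {PL : Q → Q → Prop}
  {T : Fin (r + 1) → Set Q}

/-- The positions `p = j + 1` with slot `j` inside `U`. -/
noncomputable def PosE (U : Set Q) (e : Fin r ≃ Q) : Finset (Fin (r + 1)) :=
  Finset.univ.filter (fun p => ∃ j k : Fin r, p = j.succ ∧ (k : ℕ) = j + 1 ∧ e j ∈ U ∧ e k ∈ U)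

omit [Fintype Q] in
theorem posE_card [Finite Q] (e : Fin r ≃ Q) {z : Fin r} (hz : (z : ℕ) = 0) (h0 : e z ∈ U) :
    (PosE U e).card ≤ U.ncard - 1 := by
  have h1 : (U \ {e z}).ncard = U.ncard - 1 := Set.ncard_sdiff_singleton_of_mem h0
  rw [← h1, ← Set.ncard_coe_finset]
  apply Set.ncard_le_ncard_of_injOn
    (fun p : Fin (r + 1) => if h : (p : ℕ) < r then e ⟨p, h⟩ else e z) _ _ (Set.toFinite _)
  · intro p hp
    simp only [PosE, Finset.coe_filter, Finset.mem_univ, true_and, Set.mem_ofPred_eq] at hp
    obtain ⟨j, k, rfl, hk, hj1, hk1⟩ := hp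
    have hlt : ((j.succ : Fin (r + 1)) : ℕ) < r := by
      have := k.2
      simp only [Fin.val_succ]
      omega
    have hkk : (⟨((j.succ : Fin (r + 1)) : ℕ), hlt⟩ : Fin r) = k := by
      apply Fin.ext
      simp only [Fin.val_succ]
      omega
    rw [dif_pos hlt, hkk]
    refine ⟨hk1, fun heq => ?_⟩
    rw [Set.mem_singleton_iff] at heq
    have := e.injective heq
    rw [this] at hk
    omega
  · intro p hp p' hp' heq
    simp only [PosE, Finset.coe_filter, Finset.mem_univ, true_and, Set.mem_ofPred_eq] at hp hp'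
    obtain ⟨j, k, rfl, hk, -, -⟩ := hp
    obtain ⟨j', k', rfl, hk', -, -⟩ := hp'
    have hlt : ((j.succ : Fin (r + 1)) : ℕ) < r := by
      have := k.2
      simp only [Fin.val_succ]
      omega
    have hlt' : ((j'.succ : Fin (r + 1)) : ℕ) < r := by
      have := k'.2
      simp only [Fin.val_succ]
      omega
    simp only [dif_pos hlt, dif_pos hlt'] at heq
    have := congrArg Fin.val (e.injective heq)
    simp only [Fin.val_succ] at this
    apply Fin.ext
    simp only [Fin.val_succ]
    exact this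

omit [Fintype Q] in
theorem leadE_ham (hC : Clq R T) {e : Fin r ≃ Q} {t : Equiv.Perm (Fin (r + 1))}
    (h : LeadE T U e t) : Ham R e := by
  intro j k hjk
  refine hC (t j.succ) _ (h.2.2.1 j) _ (h.2.2.2 j k hjk) ?_
  intro heq
  have := e.injective heq
  rw [this] at hjk
  omega

/-- The lows with type inside `U`. -/
noncomputable def XU (T : Fin (r + 1) → Set Q) (U : Set Q) : Finset (Fin (r + 1)) :=
  Finset.univ.filter (fun x => T x ⊆ U)

omit [Fintype Q] in
theorem xu_card : (XU T U).card = nU T U := by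
  unfold nU XU
  rw [Set.ncard_eq_toFinset_card _ (Set.toFinite _)]
  congr 1
  ext x
  simp

omit [Fintype Q] in
/-- Placements, given the sequence. -/
theorem placeE {e : Fin r ≃ Q}
    (hlast : ∀ k : Fin r, (k : ℕ) + 1 = r → e k ∉ U) :
    {t : Equiv.Perm (Fin (r + 1)) | LeadE T U e t}.ncard ≤
      nU T U * ((PosE U e).card.descFactorial (nU T U - 1) *
        (r + 1 - (1 + (nU T U - 1))).factorial) := by
  rw [← xu_card]
  have h1 : ((XU T U : Finset (Fin (r + 1))) : Set (Fin (r + 1))).ncard = (XU T U).card :=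
    Set.ncard_coe_finset _
  rw [← h1]
  nth_rewrite 2 [h1]
  nth_rewrite 2 [h1]
  apply ncard_fib (φ := fun t : Equiv.Perm (Fin (r + 1)) => t 0) (Set.toFinite _)
  · intro t ht
    simp only [XU, Finset.coe_filter, Finset.mem_univ, true_and, Set.mem_ofPred_eq]
    exact ht.1
  · intro x0 hx0
    rw [Finset.mem_coe] at hx0
    have h3 := gen_count (α := Fin (r + 1)) (β := Fin (r + 1)) {0} (PosE U e)
      ((XU T U).erase x0) (fun _ => x0) (by
        rw [Finset.disjoint_singleton_left]
        intro h
        simp only [PosE, Finset.mem_filter, Finset.mem_univ, true_and] at h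
        obtain ⟨j, k, h, -⟩ := h
        exact Fin.succ_ne_zero j h.symm)
    rw [Finset.card_erase_of_mem hx0, Finset.card_singleton, Fintype.card_fin] at h3
    refine le_trans (Set.ncard_le_ncard ?_ (Set.toFinite _)) h3
    rintro t ⟨ht, h0⟩
    refine ⟨fun a ha => ?_, fun x hx => ?_⟩
    · rw [Finset.mem_singleton] at ha
      rw [ha]; exact h0
    · rw [Finset.mem_erase] at hx
      have hne : t.symm x ≠ 0 := by
        intro h
        apply hx.1
        rw [← h0, ← h, Equiv.apply_symm_apply]
      obtain ⟨j, hj⟩ := Fin.exists_succ_eq.mpr hne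
      have hTx : T x ⊆ U := by
        have := hx.2
        simpa [XU] using this
      have hx2 : t j.succ = x := by rw [hj, Equiv.apply_symm_apply]
      have hjU : e j ∈ U := hTx (hx2 ▸ ht.2.2.1 j)
      have hjr : (j : ℕ) + 1 < r := by
        rcases Nat.lt_or_ge ((j : ℕ) + 1) r with h | h
        · exact h
        · exact absurd hjU (hlast j (by have := j.2; omega))
      simp only [PosE, Finset.mem_filter, Finset.mem_univ, true_and]
      refine ⟨j, ⟨j + 1, hjr⟩, hj.symm, rfl, hjU, ?_⟩
      exact hTx (hx2 ▸ ht.2.2.2 j ⟨j + 1, hjr⟩ rfl)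

end

/-- Arithmetic of the first case. -/
theorem arithE (r n y : ℕ) (hr : 3 ≤ r) (hn : 2 ≤ n) (hy : 1 ≤ y) (hyr : y ≤ r - 1) :
    4 * ((y * (r - 2).factorial) * (n * ((y - 1).descFactorial (n - 1) *
      (r + 1 - (1 + (n - 1))).factorial))) ≤ r.factorial ^ 2 := by
  have e1 : y * (y - 1).descFactorial (n - 1) = y.descFactorial n := by
    obtain ⟨y', rfl⟩ : ∃ y', y = y' + 1 := ⟨y - 1, by omega⟩
    obtain ⟨n', rfl⟩ : ∃ n', n = n' + 1 := ⟨n - 1, by omega⟩
    rw [Nat.succ_descFactorial_succ]
    rfl
  have e2 : y.descFactorial n ≤ (r - 1).descFactorial n := by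
    exact Nat.descFactorial_le n hyr
  have e3 : 4 * ((y * (r - 2).factorial) * (n * ((y - 1).descFactorial (n - 1) *
      (r + 1 - (1 + (n - 1))).factorial))) =
      4 * n * (y * (y - 1).descFactorial (n - 1)) * (r - 2).factorial *
        (r + 1 - n).factorial := by
    rw [show r + 1 - (1 + (n - 1)) = r + 1 - n by omega]
    ring
  rw [e3, e1]
  by_cases hnr : r - 1 < n
  · have : y.descFactorial n = 0 := Nat.descFactorial_of_lt (by omega)
    rw [this]; simp
  push Not at hnr
  obtain ⟨s, rfl⟩ : ∃ s, r = n + s + 1 := ⟨r - n - 1, by omega⟩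
  have e4 : (n + s + 1 - 1).descFactorial n * s.factorial = (n + s).factorial := by
    have := Nat.factorial_mul_descFactorial (n := n + s) (k := n) (by omega)
    rw [show n + s - n = s by omega] at this
    rw [show n + s + 1 - 1 = n + s by omega, mul_comm]
    exact this
  have e5 : (n + s + 1 + 1 - n).factorial = (s + 2) * (s + 1) * s.factorial := by
    rw [show n + s + 1 + 1 - n = s + 2 by omega, Nat.factorial_succ, Nat.factorial_succ]
    ring
  have e6 : (n + s + 1).factorial = (n + s + 1) * (n + s).factorial := Nat.factorial_succ _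
  have e7 : (n + s).factorial = (n + s) * (n + s + 1 - 2).factorial := by
    obtain ⟨m, hm⟩ : ∃ m, n + s = m + 1 := ⟨n + s - 1, by omega⟩
    rw [hm, Nat.factorial_succ, show m + 1 + 1 - 2 = m by omega]
  rw [e5]
  calc 4 * n * y.descFactorial n * (n + s + 1 - 2).factorial * ((s + 2) * (s + 1) * s.factorial)
      ≤ 4 * n * (n + s + 1 - 1).descFactorial n * (n + s + 1 - 2).factorial *
        ((s + 2) * (s + 1) * s.factorial) := by gcongr
    _ = (4 * n * (s + 1)) * (s + 2) * (((n + s + 1 - 1).descFactorial n * s.factorial) *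
        (n + s + 1 - 2).factorial) := by ring
    _ = (4 * n * (s + 1)) * (s + 2) * ((n + s).factorial * (n + s + 1 - 2).factorial) := by
        rw [e4]
    _ ≤ (n + s + 1) ^ 2 * (n + s) * ((n + s).factorial * (n + s + 1 - 2).factorial) := by
        have h1 : 4 * n * (s + 1) ≤ (n + s + 1) ^ 2 := by
          nlinarith [sq_nonneg ((n : ℤ) - (s + 1)), Nat.zero_le n]
        have h2 : s + 2 ≤ n + s := by omega
        gcongr
    _ = (n + s + 1) ^ 2 * ((n + s).factorial * ((n + s) * (n + s + 1 - 2).factorial)) := by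
        ring
    _ = (n + s + 1).factorial ^ 2 := by
        rw [← e7, e6]
        ring

theorem ke (h2 : S_E2) (h2b : S_E2b) : S_KE := by
  intro Q _ r R U PL T hr hQ hC hH
  have hlast : ∀ (e : Fin r ≃ Q), Ham R e → (∀ j : Fin r, (j : ℕ) = 0 → e j ∈ U) →
      ∀ k : Fin r, (k : ℕ) + 1 = r → e k ∉ U := by
    intro e he h0 k hk hkU
    exact hH.c1 e he ⟨0, by omega⟩ k rfl hk ⟨h0 _ rfl, hkU⟩
  refine ⟨?_, ?_, ?_⟩
  · intro h0
    unfold ME
    rw [Set.ncard_eq_zero (Set.toFinite _)]
    ext ⟨e, t⟩
    simp only [Set.mem_empty_iff_false, iff_false]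
    intro h
    unfold nU at h0
    rw [Set.ncard_eq_zero (Set.toFinite _)] at h0
    have : t 0 ∈ ({x | T x ⊆ U} : Set (Fin (r + 1))) := h.1
    rw [h0] at this
    exact this
  · intro h1
    by_cases hUe : U.Nonempty
    · have h3 := h2 Q r R U U (by omega) hQ hUe hlast
      refine le_trans (ncard_prod
        (A := {e : Fin r ≃ Q | Ham R e ∧ ∀ j : Fin r, (j : ℕ) = 0 → e j ∈ U})
        (k := r.factorial) ?_ ?_) (Nat.mul_le_mul_right _ h3)
      · rintro ⟨e, t⟩ hp
        exact ⟨leadE_ham hC hp, hp.2.1⟩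
      · intro e he
        have h4 := placeE (T := T) (hlast e he.1 he.2)
        rw [h1] at h4
        refine le_trans h4 (le_of_eq ?_)
        simp
    · rw [Set.not_nonempty_iff_eq_empty] at hUe
      have : ME T U = 0 := by
        unfold ME
        rw [Set.ncard_eq_zero (Set.toFinite _)]
        ext ⟨e, t⟩
        simp only [Set.mem_empty_iff_false, iff_false]
        intro h
        have := h.2.1 ⟨0, by omega⟩ rfl
        rw [hUe] at this
        exact this
      rw [this]; exact Nat.zero_le _
  · intro hn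
    by_cases hex : ∃ e : Fin r ≃ Q, Ham R e ∧ ∀ j : Fin r, (j : ℕ) = 0 → e j ∈ U
    swap
    · have : ME T U = 0 := by
        unfold ME
        rw [Set.ncard_eq_zero (Set.toFinite _)]
        ext ⟨e, t⟩
        simp only [Set.mem_empty_iff_false, iff_false]
        intro h
        exact hex ⟨e, leadE_ham hC h, h.2.1⟩
      rw [this]; simp
    obtain ⟨e0, he0, he0U⟩ := hex
    have hy1 : 1 ≤ U.ncard := by
      have : U.Nonempty := ⟨_, he0U ⟨0, by omega⟩ rfl⟩
      exact (Set.ncard_pos (Set.toFinite _)).mpr this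
    have hyr : U.ncard ≤ r - 1 := by
      have hne : U ≠ Set.univ := by
        intro h
        have := hlast e0 he0 he0U ⟨r - 1, by omega⟩ (by simp only; omega)
        rw [h] at this
        exact this (Set.mem_univ _)
      have : U.ncard < r := by
        rw [← hQ, ← Nat.card_eq_fintype_card, ← Set.ncard_univ]
        exact Set.ncard_lt_ncard (Set.ssubset_univ_iff.mpr hne) (Set.toFinite _)
      omega
    have hE : {e : Fin r ≃ Q | Ham R e ∧ ∀ j : Fin r, (j : ℕ) = 0 → e j ∈ U}.ncard *
        (nU T U * ((U.ncard - 1).descFactorial (nU T U - 1) *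
        (r + 1 - (1 + (nU T U - 1))).factorial)) ≤ (U.ncard * (r - 2).factorial) *
        (nU T U * ((U.ncard - 1).descFactorial (nU T U - 1) *
        (r + 1 - (1 + (nU T U - 1))).factorial)) := by
      rcases Nat.lt_or_ge 1 U.ncard with hy | hy
      · refine Nat.mul_le_mul_right _ ?_
        apply ncard_fib (φ := fun e : Fin r ≃ Q => e ⟨0, by omega⟩) (Set.toFinite U)
        · intro e he; exact he.2 _ rfl
        · intro a ha
          obtain ⟨u, hu, hua⟩ := Set.exists_ne_of_one_lt_ncard hy a
          have h5 := h2b Q r R a u (by omega) hQ hua.symm (by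
            intro e he h0 j hj heq
            exact hlast e he (fun j hj => by rw [h0 j hj]; exact ha) j hj (heq ▸ hu))
          refine le_trans (Set.ncard_le_ncard ?_ (Set.toFinite _)) h5
          rintro e ⟨⟨he, _⟩, h0⟩
          refine ⟨he, fun j hj => ?_⟩
          have : j = ⟨0, by omega⟩ := Fin.ext hj
          rw [this]; exact h0
      · have : (U.ncard - 1).descFactorial (nU T U - 1) = 0 :=
          Nat.descFactorial_of_lt (by omega)
        rw [this]; simp
    have hM : ME T U ≤ {e : Fin r ≃ Q | Ham R e ∧ ∀ j : Fin r, (j : ℕ) = 0 → e j ∈ U}.ncard *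
        (nU T U * ((U.ncard - 1).descFactorial (nU T U - 1) *
        (r + 1 - (1 + (nU T U - 1))).factorial)) := by
      apply ncard_prod
      · rintro ⟨e, t⟩ hp
        exact ⟨leadE_ham hC hp, hp.2.1⟩
      · intro e he
        refine le_trans (placeE (T := T) (hlast e he.1 he.2)) ?_
        have h6 := posE_card (U := U) e (z := ⟨0, by omega⟩) rfl (he.2 _ rfl)
        gcongr
    exact le_trans (Nat.mul_le_mul_left 4 (hM.trans hE)) (arithE r _ _ hr hn hy1 hyr)

end Pool.Agent.Y388.PK
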