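import Pool.Agent.Y388.PK.KE

/-!
# PK: the second kind, cluster in the middle
-/

set_option autoImplicit false

namespace Pool.Agent.Y388.PK

open Classical Finset Pool.Agent.Y494.PK

/-! ### Arithmetic -/

theorem choose_two_mul (a b : ℕ) : a.choose 2 * b.choose 2 ≤ (a + b).choose 4 := by
  rw [Nat.add_choose_eq]
  exact Finset.single_le_sum (f := fun ij : ℕ × ℕ => a.choose ij.1 * b.choose ij.2)
    (fun _ _ => Nat.zero_le _) (show ((2, 2) : ℕ × ℕ) ∈ _ by simp)

theorem sq_sub (a : ℕ) : a * a - a = 2 * a.choose 2 := by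
  have h1 : a.descFactorial 2 = (2 : ℕ).factorial * a.choose 2 :=
    Nat.descFactorial_eq_factorial_mul_choose a 2
  have h2 : a.descFactorial 2 = a * a - a := by
    rcases a with _ | a
    · rfl
    · simp only [Nat.descFactorial_succ, Nat.descFactorial_zero, mul_one, Nat.sub_zero]
      rw [show a + 1 - 1 = a by omega, show (a + 1) * (a + 1) = a * (a + 1) + (a + 1) by ring]
      omega
  rw [← h2, h1]
  rfl

theorem arithM1 (al be n r : ℕ) (hn : 1 ≤ n) (h : al + be + n ≤ r + 1) :
    6 * ((al * al - al) * (be * be - be) * (r + 1 - (5 + (n - 1))).factorial) ≤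
      (r + 1 - n).factorial := by
  set M := r + 1 - n with hM
  have e1 : r + 1 - (5 + (n - 1)) = M - 4 := by omega
  rw [e1, sq_sub, sq_sub]
  have h1 : al.choose 2 * be.choose 2 ≤ M.choose 4 :=
    (choose_two_mul al be).trans (Nat.choose_le_choose 4 (by omega))
  have h2 : 24 * M.choose 4 * (M - 4).factorial ≤ M.factorial := by
    by_cases hM4 : 4 ≤ M
    · have h3 : M.descFactorial 4 = (4 : ℕ).factorial * M.choose 4 :=
        Nat.descFactorial_eq_factorial_mul_choose M 4
      have h4 := Nat.factorial_mul_descFactorial hM4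
      rw [h3] at h4
      rw [← h4, show (4 : ℕ).factorial = 24 by rfl]
      apply le_of_eq
      ring
    · rw [Nat.choose_eq_zero_of_lt (by omega)]
      simp
  calc 6 * (2 * al.choose 2 * (2 * be.choose 2) * (M - 4).factorial)
      = 24 * (al.choose 2 * be.choose 2) * (M - 4).factorial := by ring
    _ ≤ 24 * M.choose 4 * (M - 4).factorial := by gcongr
    _ ≤ M.factorial := h2

theorem pow_key (p y k : ℕ) (hk : 1 ≤ k) : 2 * (k + 1) * p ^ 2 * y ^ k ≤ (p + y) ^ (k + 2) := by
  rcases Nat.lt_or_ge k 2 with h | h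
  · have : k = 1 := by omega
    subst this
    have h1 : (0 : ℤ) ≤ p := by positivity
    have h2 : (0 : ℤ) ≤ y := by positivity
    have h3 : 2 * (1 + 1) * (p : ℤ) ^ 2 * y ^ 1 ≤ (p + y) ^ (1 + 2) := by
      have h4 : 4 * (((p : ℤ) + y) ^ (1 + 2) - 2 * (1 + 1) * (p : ℤ) ^ 2 * y ^ 1) =
          p * (2 * (p : ℤ) - y) ^ 2 + 11 * (p * (y : ℤ) ^ 2) + 4 * (y * (y : ℤ) ^ 2) := by ring
      have h5 := mul_nonneg h1 (sq_nonneg (2 * (p : ℤ) - y))
      have h6 := mul_nonneg h1 (sq_nonneg (y : ℤ))
      have h7 := mul_nonneg h2 (sq_nonneg (y : ℤ))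
      linarith
    exact_mod_cast h3
  · have h1 : p ^ 2 * y ^ (k + 2 - 2) * (k + 2).choose 2 ≤ (p + y) ^ (k + 2) := by
      rw [add_pow]
      exact Finset.single_le_sum (f := fun m => p ^ m * y ^ (k + 2 - m) * (k + 2).choose m)
        (fun _ _ => Nat.zero_le _) (Finset.mem_range.mpr (by omega))
    have h2 : 2 * (k + 1) ≤ (k + 2).choose 2 := by
      have h3 := sq_sub (k + 2)
      have h4 : (k + 2) * (k + 2) - (k + 2) = (k + 2) * (k + 1) := by
        rw [show (k + 2) * (k + 2) = (k + 2) * (k + 1) + (k + 2) by ring]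
        omega
      rw [h4] at h3
      nlinarith
    calc 2 * (k + 1) * p ^ 2 * y ^ k ≤ (k + 2).choose 2 * p ^ 2 * y ^ k := by gcongr
      _ = p ^ 2 * y ^ (k + 2 - 2) * (k + 2).choose 2 := by
          rw [show k + 2 - 2 = k by omega]; ring
      _ ≤ _ := h1

theorem desc_pow (y r k : ℕ) (hyr : y ≤ r) :
    (y - 2).descFactorial k * r ^ k ≤ r.descFactorial k * y ^ k := by
  have hc : ∀ c : ℕ, c ^ k = ∏ _i ∈ Finset.range k, c := fun c => by simp
  rw [Nat.descFactorial_eq_prod_range, Nat.descFactorial_eq_prod_range, hc r, hc y,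
    ← Finset.prod_mul_distrib, ← Finset.prod_mul_distrib]
  apply Finset.prod_le_prod'
  intro i hi
  by_cases h : y ≤ 2 + i
  · rw [show y - 2 - i = 0 by omega]; simp
  · obtain ⟨s, rfl⟩ : ∃ s, y = 2 + i + s := ⟨y - 2 - i, by omega⟩
    obtain ⟨v, rfl⟩ : ∃ v, r = i + v := ⟨r - i, by omega⟩
    rw [show 2 + i + s - 2 - i = s by omega, show i + v - i = v by omega]
    nlinarith

theorem arithM2 (r n y : ℕ) (hr : 3 ≤ r) (hn : 2 ≤ n) (hy : 2 ≤ y) (hyr : y ≤ r) :
    2 * (((r - y) * (r - y - 1) * (r - 2).factorial) *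
      (n * ((y - 2).descFactorial (n - 1) * (r + 1 - n).factorial))) ≤ r.factorial ^ 2 := by
  by_cases hny : y - 2 < n - 1
  · rw [Nat.descFactorial_of_lt hny]; simp
  push Not at hny
  set p := r - y with hp
  obtain ⟨k, rfl⟩ : ∃ k, n = k + 1 := ⟨n - 1, by omega⟩
  rw [show k + 1 - 1 = k by omega, show r + 1 - (k + 1) = r - k by omega]
  have hrp : r = p + y := by omega
  have e1 : r.factorial = r * (r - 1) * (r - 2).factorial := by
    obtain ⟨m, rfl⟩ : ∃ m, r = m + 2 := ⟨r - 2, by omega⟩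
    rw [Nat.factorial_succ, Nat.factorial_succ, show m + 2 - 1 = m + 1 by omega,
      show m + 2 - 2 = m by omega]
    ring
  have e2 : r.factorial = (r - k).factorial * r.descFactorial k :=
    (Nat.factorial_mul_descFactorial (by omega)).symm
  have k1 := desc_pow y r k hyr
  have k2 : p * (p - 1) * r ≤ p ^ 2 * (r - 1) := by
    rcases Nat.eq_zero_or_pos p with h0 | h0
    · rw [h0]; simp
    · obtain ⟨p', hp'⟩ : ∃ p', p = p' + 1 := ⟨p - 1, by omega⟩
      obtain ⟨r', hr'⟩ : ∃ r', r = r' + 1 := ⟨r - 1, by omega⟩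
      have hle : p' ≤ r' := by omega
      rw [hp', hr', show p' + 1 - 1 = p' by omega, show r' + 1 - 1 = r' by omega]
      nlinarith [Nat.mul_le_mul_left (p' + 1) hle]
  have k3 : 2 * (k + 1) * p ^ 2 * y ^ k ≤ r ^ (k + 2) := by
    rw [hrp]; exact pow_key p y k (by omega)
  have key : 2 * (k + 1) * (p * (p - 1)) * (y - 2).descFactorial k ≤
      r * (r - 1) * r.descFactorial k := by
    have hpos : 0 < r ^ (k + 1) := Nat.pow_pos (by omega)
    apply Nat.le_of_mul_le_mul_right _ hpos
    calc 2 * (k + 1) * (p * (p - 1)) * (y - 2).descFactorial k * r ^ (k + 1)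
        = 2 * (k + 1) * (p * (p - 1) * r) * ((y - 2).descFactorial k * r ^ k) := by ring
      _ ≤ 2 * (k + 1) * (p ^ 2 * (r - 1)) * (r.descFactorial k * y ^ k) := by gcongr
      _ = (2 * (k + 1) * p ^ 2 * y ^ k) * ((r - 1) * r.descFactorial k) := by ring
      _ ≤ r ^ (k + 2) * ((r - 1) * r.descFactorial k) := by gcongr
      _ = r * (r - 1) * r.descFactorial k * r ^ (k + 1) := by ring
  calc 2 * (p * (p - 1) * (r - 2).factorial *
        ((k + 1) * ((y - 2).descFactorial k * (r - k).factorial)))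
      = (2 * (k + 1) * (p * (p - 1)) * (y - 2).descFactorial k) *
        ((r - 2).factorial * (r - k).factorial) := by ring
    _ ≤ (r * (r - 1) * r.descFactorial k) * ((r - 2).factorial * (r - k).factorial) := by gcongr
    _ = (r * (r - 1) * (r - 2).factorial) * ((r - k).factorial * r.descFactorial k) := by ring
    _ = r.factorial ^ 2 := by rw [← e1, ← e2]; ring

/-! ### Combinatorics -/

section

variable {Q : Type} {r : ℕ} {R : SimpleGraph Q} {U : Set Q} {PL : Q → Q → Prop}
  {T : Fin (r + 1) → Set Q}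

theorem ne_of_succ {e : Fin r ≃ Q} {j k : Fin r} (h : (k : ℕ) = j + 1) : e j ≠ e k := by
  intro heq
  have := e.injective heq
  rw [this] at h
  omega

theorem leadM_adj (hC : Clq R T) {e : Fin r ≃ Q} {a : ℕ} {t : Equiv.Perm (Fin (r + 1))}
    (h : LeadM T U PL e a t) :
    ∀ j k : Fin r, (k : ℕ) = j + 1 → (k : ℕ) ≠ a → R.Adj (e j) (e k) := by
  obtain ⟨h1, h2, h3, h4, h5, h6, h7⟩ := h
  intro j k hjk hka
  rcases Nat.lt_or_ge (k : ℕ) a with hlt | hge
  · exact hC (t k.succ) _ (h6 j k hjk hlt) _ (h5 k) (ne_of_succ hjk)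
  · exact hC (t j.succ) _ (h5 j) _ (h7 j k hjk (by omega)) (ne_of_succ hjk)

/-- Facts on a sequence which has a placement. -/
structure Fct (R : SimpleGraph Q) (U : Set Q) (e : Fin r ≃ Q) (a : ℕ) : Prop where
  a2 : 2 ≤ a
  ar : a + 2 ≤ r
  f : ∀ j : Fin r, (j : ℕ) = 0 → e j ∉ U
  l : ∀ j : Fin r, (j : ℕ) + 1 = r → e j ∉ U
  n : ∀ j k : Fin r, (j : ℕ) = 0 → (k : ℕ) + 1 = r → ¬ R.Adj (e j) (e k)
  u1 : ∀ j : Fin r, (j : ℕ) + 1 = a → e j ∈ U
  u2 : ∀ j : Fin r, (j : ℕ) = a → e j ∈ U

theorem fct (hC : Clq R T) (hH : Hyp2 r R U PL) {e : Fin r ≃ Q} {a : ℕ}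
    {t : Equiv.Perm (Fin (r + 1))} (h : LeadM T U PL e a t) : Fct R U e a := by
  have hadj := leadM_adj hC h
  obtain ⟨h1, h2, h3, h4, h5, h6, h7⟩ := h
  have hc2 := hH.c2 e a h1 h2 hadj h4
  have hp := hH.pl _ _ (h4 ⟨a - 1, by omega⟩ ⟨a, h2⟩ (by simp only; omega) rfl)
  have hu1 : ∀ j : Fin r, (j : ℕ) + 1 = a → e j ∈ U := by
    intro j hj
    have : j = ⟨a - 1, by omega⟩ := Fin.ext (by simp only; omega)
    rw [this]; exact hp.1
  have hu2 : ∀ j : Fin r, (j : ℕ) = a → e j ∈ U := by
    intro j hj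
    have : j = ⟨a, h2⟩ := Fin.ext hj
    rw [this]; exact hp.2
  have hf : ∀ j : Fin r, (j : ℕ) = 0 → e j ∉ U := fun j hj =>
    (hc2 j ⟨r - 1, by omega⟩ hj (by simp only; omega)).1
  have hl : ∀ j : Fin r, (j : ℕ) + 1 = r → e j ∉ U := fun j hj =>
    (hc2 ⟨0, by omega⟩ j rfl hj).2.1
  refine ⟨?_, ?_, hf, hl, fun j k hj hk => (hc2 j k hj hk).2.2, hu1, hu2⟩
  · by_contra hcon
    exact hf ⟨0, by omega⟩ rfl (hu1 _ (by simp only; omega))
  · by_contra hcon
    exact hl ⟨a, h2⟩ (by simp only; omega) (hu2 _ rfl)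

/-- The break is determined by the sequence. -/
theorem brk (hC : Clq R T) (hH : Hyp2 r R U PL) {e : Fin r ≃ Q} {a a' : ℕ}
    {t t' : Equiv.Perm (Fin (r + 1))} (h : LeadM T U PL e a t) (h' : LeadM T U PL e a' t') :
    a = a' := by
  by_contra hne
  have k1 := leadM_adj hC h
  have k2 := leadM_adj hC h'
  have hham : Ham R e := by
    intro j k hjk
    by_cases hka : (k : ℕ) = a
    · exact k2 j k hjk (by omega)
    · exact k1 j k hjk hka
  have ha := h.1
  have har := h.2.1
  have ha' := h'.1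
  have har' := h'.2.1
  refine hH.c3 e hham ⟨a - 1, by omega⟩ ⟨a, har⟩ ⟨a' - 1, by omega⟩ ⟨a', har'⟩
    (by simp only; omega) (by simp only; omega) ?_
    (h.2.2.2.1 _ _ (by simp only; omega) rfl) (h'.2.2.2.1 _ _ (by simp only; omega) rfl)
  intro heq
  have := congrArg Fin.val heq
  simp only at this
  omega

/-- The positions with slot inside `U`. -/
noncomputable def PosM (U : Set Q) (e : Fin r ≃ Q) (a : ℕ) : Finset (Fin (r + 1)) :=
  Finset.univ.filter (fun p => ∃ j : Fin r, p = j.succ ∧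
    (((j : ℕ) < a ∧ ∃ i : Fin r, (j : ℕ) = i + 1 ∧ e i ∈ U ∧ e j ∈ U) ∨
      (a ≤ (j : ℕ) ∧ ∃ k : Fin r, (k : ℕ) = j + 1 ∧ e j ∈ U ∧ e k ∈ U)))

theorem mem_posM {e : Fin r ≃ Q} {a : ℕ} {p : Fin (r + 1)} : p ∈ PosM U e a ↔
    ∃ j : Fin r, p = j.succ ∧
    (((j : ℕ) < a ∧ ∃ i : Fin r, (j : ℕ) = i + 1 ∧ e i ∈ U ∧ e j ∈ U) ∨
      (a ≤ (j : ℕ) ∧ ∃ k : Fin r, (k : ℕ) = j + 1 ∧ e j ∈ U ∧ e k ∈ U)) := by
  simp [PosM]

/-- The other hub of the slot. -/
noncomputable def oth (a : ℕ) (p : Fin (r + 1)) (hr : 0 < r) : Fin r :=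
  if (p : ℕ) ≤ a then ⟨(p : ℕ) - 2, by omega⟩
  else if h : (p : ℕ) < r then ⟨p, h⟩ else ⟨0, hr⟩

theorem posM_card [Finite Q] {e : Fin r ≃ Q} {a : ℕ} (hf : Fct R U e a) :
    (PosM U e a).card ≤ U.ncard - 2 := by
  have ha2 := hf.a2
  have har := hf.ar
  have hr : 0 < r := by omega
  have hne : e ⟨a - 1, by omega⟩ ≠ e ⟨a, by omega⟩ := ne_of_succ (by simp only; omega)
  have h1 : ((U \ {e ⟨a - 1, by omega⟩}) \ {e ⟨a, by omega⟩}).ncard = U.ncard - 1 - 1 := by
    rw [Set.ncard_sdiff_singleton_of_mem, Set.ncard_sdiff_singleton_of_mem]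
    · exact hf.u1 _ (by simp only; omega)
    · exact ⟨hf.u2 _ rfl, by rw [Set.mem_singleton_iff]; exact hne.symm⟩
  have h2 : U.ncard - 2 = U.ncard - 1 - 1 := by omega
  rw [h2, ← h1, ← Set.ncard_coe_finset]
  have hval : ∀ p : Fin (r + 1), p ∈ PosM U e a →
      (((p : ℕ) ≤ a ∧ 2 ≤ (p : ℕ) ∧ ((oth a p hr : Fin r) : ℕ) = (p : ℕ) - 2) ∨
      (a + 1 ≤ (p : ℕ) ∧ ((oth a p hr : Fin r) : ℕ) = (p : ℕ))) ∧ e (oth a p hr) ∈ U := by
    intro p hp
    rw [mem_posM] at hp
    obtain ⟨j, rfl, h | h⟩ := hp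
    · obtain ⟨h3, i, h4, h5, h6⟩ := h
      have hle : ((j.succ : Fin (r + 1)) : ℕ) ≤ a := by simp only [Fin.val_succ]; omega
      have ho : oth a j.succ hr = i := by
        apply Fin.ext
        unfold oth
        rw [if_pos hle]
        simp only [Fin.val_succ]
        omega
      rw [ho]
      refine ⟨Or.inl ⟨hle, ?_, ?_⟩, h5⟩
      · simp only [Fin.val_succ]; omega
      · simp only [Fin.val_succ]; omega
    · obtain ⟨h3, k, h4, h5, h6⟩ := h
      have hle : ¬ ((j.succ : Fin (r + 1)) : ℕ) ≤ a := by simp only [Fin.val_succ]; omega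
      have hlt : ((j.succ : Fin (r + 1)) : ℕ) < r := by
        have := k.2
        simp only [Fin.val_succ]; omega
      have ho : oth a j.succ hr = k := by
        apply Fin.ext
        unfold oth
        rw [if_neg hle, dif_pos hlt]
        simp only [Fin.val_succ]
        omega
      rw [ho]
      refine ⟨Or.inr ⟨?_, ?_⟩, h6⟩
      · simp only [Fin.val_succ]; omega
      · simp only [Fin.val_succ]; omega
  apply Set.ncard_le_ncard_of_injOn (fun p : Fin (r + 1) => e (oth a p hr)) _ _ (Set.toFinite _)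
  · intro p hp
    rw [Finset.mem_coe] at hp
    obtain ⟨h3, h4⟩ := hval p hp
    refine ⟨⟨h4, fun heq => ?_⟩, fun heq => ?_⟩
    · rw [Set.mem_singleton_iff] at heq
      have := congrArg Fin.val (e.injective heq)
      simp only at this
      omega
    · rw [Set.mem_singleton_iff] at heq
      have := congrArg Fin.val (e.injective heq)
      simp only at this
      omega
  · intro p hp p' hp' heq
    rw [Finset.mem_coe] at hp hp'
    obtain ⟨h3, -⟩ := hval p hp
    obtain ⟨h3', -⟩ := hval p' hp'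
    have := congrArg Fin.val (e.injective heq)
    apply Fin.ext
    omega

/-- The lows whose type contains the hub `q`. -/
noncomputable def Cont (T : Fin (r + 1) → Set Q) (q : Q) : Finset (Fin (r + 1)) :=
  Finset.univ.filter (fun x => q ∈ T x)

theorem placeM {e : Fin r ≃ Q} {a : ℕ} (hf : Fct R U e a) {f l : Fin r}
    (hf0 : (f : ℕ) = 0) (hl0 : (l : ℕ) + 1 = r) :
    {t : Equiv.Perm (Fin (r + 1)) | LeadM T U PL e a t}.ncard ≤
      ((XU T U) ×ˢ ((Cont T (e f)).offDiag ×ˢ (Cont T (e l)).offDiag)).card *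
      ((PosM U e a).card.descFactorial (nU T U - 1) *
        (r + 1 - (5 + (nU T U - 1))).factorial) := by
  have ha2 := hf.a2
  have har := hf.ar
  rw [← Set.ncard_coe_finset]
  let p1 : Fin (r + 1) := ⟨1, by omega⟩
  let p2 : Fin (r + 1) := ⟨2, by omega⟩
  let q1 : Fin (r + 1) := ⟨r - 1, by omega⟩
  let q2 : Fin (r + 1) := ⟨r, by omega⟩
  have n01 : (0 : Fin (r + 1)) ≠ p1 := by intro h; have := congrArg Fin.val h; simp [p1] at this
  have n02 : (0 : Fin (r + 1)) ≠ p2 := by intro h; have := congrArg Fin.val h; simp [p2] at this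
  have n03 : (0 : Fin (r + 1)) ≠ q1 := by
    intro h; have := congrArg Fin.val h; simp [q1] at this; omega
  have n04 : (0 : Fin (r + 1)) ≠ q2 := by
    intro h; have := congrArg Fin.val h; simp [q2] at this; omega
  have n12 : p1 ≠ p2 := by intro h; have := congrArg Fin.val h; simp [p1, p2] at this
  have n13 : p1 ≠ q1 := by intro h; have := congrArg Fin.val h; simp [p1, q1] at this; omega
  have n14 : p1 ≠ q2 := by intro h; have := congrArg Fin.val h; simp [p1, q2] at this; omega
  have n23 : p2 ≠ q1 := by intro h; have := congrArg Fin.val h; simp [p2, q1] at this; omega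
  have n24 : p2 ≠ q2 := by intro h; have := congrArg Fin.val h; simp [p2, q2] at this; omega
  have n34 : q1 ≠ q2 := by intro h; have := congrArg Fin.val h; simp [q1, q2] at this; omega
  have s1 : p1 = f.succ := Fin.ext (by simp [p1, hf0])
  have s2 : p2 = (⟨1, by omega⟩ : Fin r).succ := Fin.ext (by simp [p2])
  have s3 : q1 = (⟨r - 2, by omega⟩ : Fin r).succ := Fin.ext (by simp [q1]; omega)
  have s4 : q2 = l.succ := Fin.ext (by simp [q2]; omega)
  apply ncard_fib (φ := fun t : Equiv.Perm (Fin (r + 1)) =>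
    ((t 0, ((t p1, t p2), (t q1, t q2))) : Fin (r + 1) × ((Fin (r + 1) × Fin (r + 1)) ×
      (Fin (r + 1) × Fin (r + 1))))) (Set.toFinite _)
  · rintro t ⟨h1, h2, h3, h4, h5, h6, h7⟩
    rw [Finset.mem_coe, Finset.mem_product, Finset.mem_product, Finset.mem_offDiag,
      Finset.mem_offDiag]
    simp only [XU, Cont, Finset.mem_filter, Finset.mem_univ, true_and]
    refine ⟨h3, ⟨?_, ?_, ?_⟩, ?_, ?_, ?_⟩
    · rw [s1]; exact h5 f
    · rw [s2]; exact h6 f ⟨1, by omega⟩ (by simp only; omega) (by simp only; omega)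
    · exact fun h => n12 (t.injective h)
    · rw [s3]; exact h7 ⟨r - 2, by omega⟩ l (by simp only; omega) (by simp only; omega)
    · rw [s4]; exact h5 l
    · exact fun h => n34 (t.injective h)
  · rintro ⟨x0, ⟨x1, x2⟩, ⟨x3, x4⟩⟩ hx
    rw [Finset.mem_coe, Finset.mem_product] at hx
    have hx0 : x0 ∈ XU T U := hx.1
    have h3 := gen_count (α := Fin (r + 1)) (β := Fin (r + 1)) {0, p1, p2, q1, q2} (PosM U e a)
      ((XU T U).erase x0) (fun i => if i = 0 then x0 else if i = p1 then x1 else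
        if i = p2 then x2 else if i = q1 then x3 else x4) (by
        rw [Finset.disjoint_left]
        intro p hp hp'
        rw [mem_posM] at hp'
        obtain ⟨j, rfl, hj⟩ := hp'
        have hj' := j.2
        have hcase : (j : ℕ) = 0 ∨ (j : ℕ) = 1 ∨ (j : ℕ) = r - 2 ∨ (j : ℕ) = r - 1 := by
          simp only [Finset.mem_insert, Finset.mem_singleton] at hp
          rcases hp with h | h | h | h | h
          · exact absurd h (Fin.succ_ne_zero j)
          all_goals
            have := congrArg Fin.val h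
            simp only [Fin.val_succ, p1, p2, q1, q2] at this
            omega
        rcases hj with ⟨h3, i, h4, h5, h6⟩ | ⟨h3, k, h4, h5, h6⟩
        · rcases hcase with h | h | h | h
          · omega
          · exact hf.f i (by omega) h5
          · omega
          · omega
        · have hk := k.2
          rcases hcase with h | h | h | h
          · omega
          · omega
          · exact hf.l k (by omega) h6
          · omega)
    have hc5 : ({0, p1, p2, q1, q2} : Finset (Fin (r + 1))).card = 5 := by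
      rw [Finset.card_insert_of_notMem, Finset.card_insert_of_notMem,
        Finset.card_insert_of_notMem, Finset.card_pair n34]
      · simp [n23, n24]
      · simp [n12, n13, n14]
      · simp [n01, n02, n03, n04]
    rw [Finset.card_erase_of_mem hx0, hc5, Fintype.card_fin, xu_card] at h3
    refine le_trans (Set.ncard_le_ncard ?_ (Set.toFinite _)) h3
    rintro t ⟨ht, h0⟩
    simp only [Prod.mk.injEq] at h0
    obtain ⟨g0, ⟨g1, g2⟩, g3, g4⟩ := h0
    refine ⟨fun i hi => ?_, fun x hx => ?_⟩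
    · simp only [Finset.mem_insert, Finset.mem_singleton] at hi
      rcases hi with rfl | rfl | rfl | rfl | rfl
      · simp [g0]
      · simp [g1, n01.symm]
      · simp [g2, n02.symm, n12.symm]
      · simp [g3, n03.symm, n13.symm, n23.symm]
      · simp [g4, n04.symm, n14.symm, n24.symm, n34.symm]
    · rw [Finset.mem_erase] at hx
      obtain ⟨h1, h2, h3, h4, h5, h6, h7⟩ := ht
      have hne : t.symm x ≠ 0 := by
        intro h
        apply hx.1
        rw [← g0, ← h, Equiv.apply_symm_apply]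
      obtain ⟨j, hj⟩ := Fin.exists_succ_eq.mpr hne
      have hTx : T x ⊆ U := by
        have := hx.2
        simpa [XU] using this
      have hx2 : t j.succ = x := by rw [hj, Equiv.apply_symm_apply]
      have hjU : e j ∈ U := hTx (hx2 ▸ h5 j)
      rw [mem_posM]
      refine ⟨j, hj.symm, ?_⟩
      rcases Nat.lt_or_ge (j : ℕ) a with hlt | hge
      · left
        have hj0 : 1 ≤ (j : ℕ) := by
          rcases Nat.eq_zero_or_pos (j : ℕ) with h | h
          · exact absurd hjU (hf.f j h)
          · exact h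
        refine ⟨hlt, ⟨j - 1, by omega⟩, by simp only; omega, ?_, hjU⟩
        exact hTx (hx2 ▸ h6 ⟨j - 1, by omega⟩ j (by simp only; omega) hlt)
      · right
        have hjr : (j : ℕ) + 1 < r := by
          rcases Nat.lt_or_ge ((j : ℕ) + 1) r with h | h
          · exact h
          · exact absurd hjU (hf.l j (by have := j.2; omega))
        exact ⟨hge, ⟨j + 1, hjr⟩, rfl, hjU, hTx (hx2 ▸ h7 j ⟨j + 1, hjr⟩ rfl hge)⟩

/-- Placements, final bound. -/
theorem placeM' (hC : Clq R T) {e : Fin r ≃ Q} {a : ℕ} [Finite Q] (hf : Fct R U e a)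
    (hn : 1 ≤ nU T U) :
    6 * {t : Equiv.Perm (Fin (r + 1)) | LeadM T U PL e a t}.ncard ≤
      nU T U * ((U.ncard - 2).descFactorial (nU T U - 1) * (r + 1 - nU T U).factorial) := by
  have ha2 := hf.a2
  have har := hf.ar
  let f : Fin r := ⟨0, by omega⟩
  let l : Fin r := ⟨r - 1, by omega⟩
  have hl0 : (l : ℕ) + 1 = r := by simp only [l]; omega
  have h1 := placeM (PL := PL) (T := T) hf (f := f) (l := l) rfl hl0
  have h2 := posM_card hf
  have hfl : e f ≠ e l := by
    intro heq
    have := congrArg Fin.val (e.injective heq)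
    simp only [f, l] at this
    omega
  have hsum : (Cont T (e f)).card + (Cont T (e l)).card + nU T U ≤ r + 1 := by
    rw [← xu_card (T := T) (U := U)]
    have d1 : Disjoint (Cont T (e f)) (Cont T (e l)) := by
      rw [Finset.disjoint_left]
      intro x hx hx'
      simp only [Cont, Finset.mem_filter, Finset.mem_univ, true_and] at hx hx'
      exact hf.n f l rfl hl0 (hC x _ hx _ hx' hfl)
    have d2 : Disjoint (Cont T (e f) ∪ Cont T (e l)) (XU T U) := by
      rw [Finset.disjoint_left]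
      intro x hx hx'
      simp only [Cont, XU, Finset.mem_union, Finset.mem_filter, Finset.mem_univ,
        true_and] at hx hx'
      rcases hx with hx | hx
      · exact hf.f f rfl (hx' hx)
      · exact hf.l l hl0 (hx' hx)
    rw [← Finset.card_union_of_disjoint d1, ← Finset.card_union_of_disjoint d2]
    exact (Finset.card_le_univ _).trans (by rw [Fintype.card_fin])
  have h3 := arithM1 _ _ _ r hn hsum
  rw [Finset.card_product, Finset.card_product, Finset.offDiag_card, Finset.offDiag_card,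
    xu_card] at h1
  calc 6 * {t : Equiv.Perm (Fin (r + 1)) | LeadM T U PL e a t}.ncard
      ≤ 6 * (nU T U * (((Cont T (e f)).card * (Cont T (e f)).card - (Cont T (e f)).card) *
        ((Cont T (e l)).card * (Cont T (e l)).card - (Cont T (e l)).card)) *
        ((PosM U e a).card.descFactorial (nU T U - 1) *
        (r + 1 - (5 + (nU T U - 1))).factorial)) := Nat.mul_le_mul_left _ h1
    _ = nU T U * ((PosM U e a).card.descFactorial (nU T U - 1) *
        (6 * (((Cont T (e f)).card * (Cont T (e f)).card - (Cont T (e f)).card) *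
        ((Cont T (e l)).card * (Cont T (e l)).card - (Cont T (e l)).card) *
        (r + 1 - (5 + (nU T U - 1))).factorial))) := by ring
    _ ≤ nU T U * ((U.ncard - 2).descFactorial (nU T U - 1) * (r + 1 - nU T U).factorial) := by
        gcongr

end

theorem km : S_KM := by
  intro Q _ r R U PL T hr hQ hC hH
  by_cases hex : ∃ (e : Fin r ≃ Q) (a : ℕ) (t : Equiv.Perm (Fin (r + 1))), LeadM T U PL e a t
  swap
  · have h0 : MM T U PL = 0 := by
      unfold MM
      rw [Set.ncard_eq_zero (Set.toFinite _)]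
      ext ⟨e, a, t⟩
      simp only [Set.mem_empty_iff_false, iff_false]
      intro h
      exact hex ⟨e, a, t, h⟩
    rw [h0]
    exact ⟨fun _ => rfl, fun _ => by simp, fun _ => by simp⟩
  obtain ⟨e0, a0, t0, hlead⟩ := hex
  have hf0 := fct hC hH hlead
  have ha2 := hf0.a2
  have har := hf0.ar
  have hn1 : 1 ≤ nU T U := by
    unfold nU
    exact (Set.ncard_pos (Set.toFinite _)).mpr ⟨t0 0, hlead.2.2.1⟩
  have hy2 : 2 ≤ U.ncard := by
    have h1 : ({e0 ⟨a0 - 1, by omega⟩, e0 ⟨a0, by omega⟩} : Set Q).ncard = 2 :=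
      Set.ncard_pair (ne_of_succ (by simp only; omega))
    rw [← h1]
    apply Set.ncard_le_ncard _ (Set.toFinite _)
    rintro q (rfl | rfl)
    · exact hf0.u1 _ (by simp only; omega)
    · exact hf0.u2 _ rfl
  have hyr : U.ncard ≤ r := by
    rw [← hQ, ← Nat.card_eq_fintype_card, ← Set.ncard_univ]
    exact Set.ncard_le_ncard (Set.subset_univ _) (Set.toFinite _)
  -- the number of sequences
  set E : Set (Fin r ≃ Q) := {e | e ⟨0, by omega⟩ ∉ U ∧ e ⟨r - 1, by omega⟩ ∉ U} with hE
  have hEc : E.ncard ≤ (r - U.ncard) * (r - U.ncard - 1) * (r - 2).factorial := by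
    have hcomp : (Uᶜ.toFinset).card = r - U.ncard := by
      rw [← Set.ncard_eq_toFinset_card', Set.ncard_compl, Nat.card_eq_fintype_card, hQ]
    have h5 : (((Uᶜ.toFinset).offDiag : Finset (Q × Q)) : Set (Q × Q)).ncard =
        (r - U.ncard) * (r - U.ncard - 1) := by
      rw [Set.ncard_coe_finset, Finset.offDiag_card, hcomp]
      exact (Nat.mul_sub_one _ _).symm
    rw [← h5]
    apply ncard_fib (φ := fun e : Fin r ≃ Q => (e ⟨0, by omega⟩, e ⟨r - 1, by omega⟩))
      (Set.toFinite _)
    · rintro e ⟨h1, h2⟩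
      rw [Finset.mem_coe, Finset.mem_offDiag]
      refine ⟨by simpa using h1, by simpa using h2, ?_⟩
      intro heq
      have := congrArg Fin.val (e.injective heq)
      simp only at this
      omega
    · rintro ⟨q, q'⟩ _
      refine le_trans (Set.ncard_le_ncard ?_ (Set.toFinite _))
        (count_two (Q := Q) (j := (⟨0, by omega⟩ : Fin r)) (k := ⟨r - 1, by omega⟩) (by
          intro heq
          have := congrArg Fin.val heq
          simp only at this
          omega) q q')
      rintro e ⟨_, h⟩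
      simp only [Prod.mk.injEq] at h
      exact h
  -- the main bound
  have hmain : 6 * MM T U PL ≤ ((r - U.ncard) * (r - U.ncard - 1) * (r - 2).factorial) *
      (nU T U * ((U.ncard - 2).descFactorial (nU T U - 1) * (r + 1 - nU T U).factorial)) := by
    set K := (nU T U * ((U.ncard - 2).descFactorial (nU T U - 1) *
      (r + 1 - nU T U).factorial)) / 6 with hK
    have h6 : MM T U PL ≤ E.ncard * K := by
      apply ncard_prod
      · rintro ⟨e, a, t⟩ hp
        have hf := fct hC hH hp
        exact ⟨hf.f _ rfl, hf.l _ (by simp only; omega)⟩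
      · intro e _
        by_cases hex : ∃ (a : ℕ) (t : Equiv.Perm (Fin (r + 1))), LeadM T U PL e a t
        · obtain ⟨a, t1, h1⟩ := hex
          have hf := fct hC hH h1
          have h7 := placeM' (PL := PL) hC hf hn1
          refine le_trans ?_ ((Nat.le_div_iff_mul_le (by norm_num)).mpr
            (by rw [mul_comm]; exact h7))
          apply Set.ncard_le_ncard_of_injOn (fun p : Fin r × Equiv.Perm (Fin (r + 1)) => p.2) _ _
            (Set.toFinite _)
          · rintro ⟨b, t⟩ hb
            have hb' : LeadM T U PL e (b : ℕ) t := hb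
            have := brk hC hH h1 hb'
            rw [← this] at hb'
            exact hb'
          · rintro ⟨b, t⟩ hb ⟨b', t'⟩ hb' heq
            have hb1 : LeadM T U PL e (b : ℕ) t := hb
            have hb2 : LeadM T U PL e (b' : ℕ) t' := hb'
            have := brk hC hH hb1 hb2
            simp only at heq
            rw [Prod.mk.injEq]
            exact ⟨Fin.ext this, heq⟩
        · have : {b : Fin r × Equiv.Perm (Fin (r + 1)) |
              (e, b) ∈ {p : (Fin r ≃ Q) × Fin r × Equiv.Perm (Fin (r + 1)) |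
                LeadM T U PL p.1 (p.2.1 : ℕ) p.2.2}} = ∅ := by
            ext ⟨b, t⟩
            simp only [Set.mem_empty_iff_false, iff_false]
            intro hb
            exact hex ⟨b, t, hb⟩
          rw [this]; simp
    calc 6 * MM T U PL ≤ 6 * (E.ncard * K) := Nat.mul_le_mul_left _ h6
      _ = E.ncard * (6 * K) := by ring
      _ ≤ _ := Nat.mul_le_mul hEc (Nat.mul_div_le _ _)
  refine ⟨fun h => by omega, fun h => ?_, fun h => ?_⟩
  · rw [h] at hmain
    refine hmain.trans ?_
    rw [show r + 1 - 1 = r by omega]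
    simp only [Nat.sub_self, Nat.descFactorial_zero, one_mul]
    exact Nat.mul_le_mul_right _ (Nat.mul_le_mul_right _ (Nat.mul_le_mul (by omega) (by omega)))
  · have h8 := arithM2 r (nU T U) U.ncard hr h hy2 hyr
    calc 12 * MM T U PL = 2 * (6 * MM T U PL) := by ring
      _ ≤ 2 * (((r - U.ncard) * (r - U.ncard - 1) * (r - 2).factorial) *
        (nU T U * ((U.ncard - 2).descFactorial (nU T U - 1) * (r + 1 - nU T U).factorial))) :=
          Nat.mul_le_mul_left _ hmain
      _ ≤ _ := h8

/-- The second kind. -/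
theorem k2all (hE : S_KE) (hM : S_KM) : S_K2 := by
  intro Q _ r R U PL T hr hQ hC hH
  obtain ⟨a0, a1, a2⟩ := hE Q r R U PL T hr hQ hC hH
  obtain ⟨b0, b1, b2⟩ := hM Q r R U PL T hr hQ hC hH
  rcases Nat.lt_trichotomy (nU T U) 1 with h | h | h
  · rw [a0 (by omega), b0 (by omega)]; simp
  · have c1 := a1 h
    have c2 := b1 h
    obtain ⟨m, rfl⟩ : ∃ m, r = m + 3 := ⟨r - 3, by omega⟩
    rw [show m + 3 - 1 = m + 2 by omega] at c1
    rw [show m + 3 - 2 = m + 1 by omega, show m + 3 - 3 = m by omega] at c2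
    have f2 : (m + 2).factorial = (m + 2) * (m + 1).factorial := Nat.factorial_succ _
    have f3 : (m + 3).factorial = (m + 3) * ((m + 2) * (m + 1).factorial) := by
      rw [Nat.factorial_succ, f2]
    rw [f3] at c1 c2 ⊢
    rw [f2] at c1
    set F := (m + 1).factorial
    have h3 : 6 * ME T U + 6 * MM T U PL ≤ 2 * ((m + 3) * ((m + 2) * F)) ^ 2 := by
      have h4 : 6 * ((m + 2) * F * ((m + 3) * ((m + 2) * F))) +
          (m + 1) * m * F * ((m + 3) * ((m + 2) * F)) ≤ 2 * ((m + 3) * ((m + 2) * F)) ^ 2 := by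
        have h5 : 6 * (m + 2) + (m + 1) * m ≤ 2 * ((m + 3) * (m + 2)) := by nlinarith
        calc 6 * ((m + 2) * F * ((m + 3) * ((m + 2) * F))) +
            (m + 1) * m * F * ((m + 3) * ((m + 2) * F))
            = (6 * (m + 2) + (m + 1) * m) * (F * ((m + 3) * ((m + 2) * F))) := by ring
          _ ≤ (2 * ((m + 3) * (m + 2))) * (F * ((m + 3) * ((m + 2) * F))) := by gcongr
          _ = _ := by ring
      omega
    omega
  · have c1 := a2 (by omega)
    have c2 := b2 (by omega)
    omega

end Pool.Agent.Y388.PK
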