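import Pool.Agent.Y641.PK.Sub

/-!
# PK: configurations of the first kind, isolated hubs, special lows
-/

set_option autoImplicit false

namespace Pool.Agent.Y388.PK

open Classical Pool.Agent.Y494.PK
open Pool.Agent.Y641.PK (hgadj skel1 skn1 clp_symm ins ins_lt ins_eq ins_gt skelI sum_one_two)

theorem sum_zero_one (n b : ℕ) (hb : b < n) :
    ∑ j ∈ Finset.range n, (if j = b then 0 else 1) = n - 1 := by
  have h1 : ∑ j ∈ Finset.range n, (if j = b then 0 else 1) + 1 = n := by
    have h2 : ∑ j ∈ Finset.range n, ((if j = b then 0 else 1) + (if j = b then 1 else 0)) = n := by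
      rw [Finset.sum_congr rfl (g := fun _ => 1)]
      · simp
      · intro j _
        split_ifs <;> rfl
    rw [Finset.sum_add_distrib] at h2
    simpa [hb] using h2
  omega

section

variable {V : Type} [Fintype V] {G : SimpleGraph V} {r : ℕ} {S L : Set V}

/-- Links of a configuration of the first kind. -/
theorem lk1 {x h : Fin (r + 1) → V} {i : ℕ} (hv : LV1 G S L x h i)
    (hcl : ∀ j, Cl G (r + 1) S L (x j)) (j k : Fin (r + 1)) (hjk : (k : ℕ) = j + 1) :
    Lk G (r + 1) S L ((fun t : ℕ => if t = i then 0 else 1) j) (h j) (h k) := by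
  have hne : h j ≠ h k := fun hh => by
    have := congrArg Fin.val (hv.hinj hh)
    omega
  rcases lt_trichotomy (j : ℕ) i with hj | hj | hj
  · refine Or.inr (Or.inl ⟨by simp only; rw [if_neg (by omega)], ?_⟩)
    exact hgadj (hv.hS j) (hv.hS k) hne (hcl k) (hv.lef j k hjk (by omega)) (hv.mat k)
  · exact Or.inl ⟨by simp only; rw [if_pos hj], hv.mid j k hjk hj⟩
  · refine Or.inr (Or.inl ⟨by simp only; rw [if_neg (by omega)], ?_⟩)
    exact hgadj (hv.hS j) (hv.hS k) hne (hcl j) (hv.mat j) (hv.rig j k hjk hj)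

omit [Fintype V] in
theorem mem_ty {x a : V} (ha : a ∈ S) (h : G.Adj a x) : a ∈ Ty G S x := ⟨ha, h⟩

/-- The side of an isolated hub. -/
theorem side1 {x h : Fin (r + 1) → V} {i : ℕ} (hv : LV1 G S L x h i)
    (hcl : ∀ j, Cl G (r + 1) S L (x j)) (s : Fin (r + 1))
    (hs : ∀ k, ¬ (HG G (r + 1) S L).Adj (h s) (h k)) :
    ((s : ℕ) = 0 ∧ i = 0) ∨ ((s : ℕ) = r ∧ i + 1 = r) := by
  have hbri := hv.bri
  have hsl := s.isLt
  have hne : ∀ j k : Fin (r + 1), (k : ℕ) ≠ j → h j ≠ h k := fun j k hjk hh => by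
    have := congrArg Fin.val (hv.hinj hh)
    omega
  rcases Nat.lt_or_ge i (s : ℕ) with his | his
  · right
    have h1 : (s : ℕ) = r := by
      by_contra hcon
      let k : Fin (r + 1) := ⟨(s : ℕ) + 1, by omega⟩
      exact hs k (hgadj (hv.hS s) (hv.hS k) (hne s k (by simp only [k]; omega)) (hcl s) (hv.mat s)
        (hv.rig s k rfl his))
    refine ⟨h1, ?_⟩
    by_contra hcon
    let k : Fin (r + 1) := ⟨(s : ℕ) - 1, by omega⟩
    have hk : (s : ℕ) = (k : ℕ) + 1 := by simp only [k]; omega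
    exact hs k (hgadj (hv.hS s) (hv.hS k) (hne s k (by omega)) (hcl k) (hv.rig k s hk
      (by simp only [k]; omega)) (hv.mat k))
  · left
    have h1 : (s : ℕ) = 0 := by
      by_contra hcon
      let k : Fin (r + 1) := ⟨(s : ℕ) - 1, by omega⟩
      have hk : (s : ℕ) = (k : ℕ) + 1 := by simp only [k]; omega
      exact hs k (hgadj (hv.hS s) (hv.hS k) (hne s k (by omega)) (hcl s) (hv.mat s)
        (hv.lef k s hk his))
    refine ⟨h1, ?_⟩
    by_contra hcon
    let k : Fin (r + 1) := ⟨(s : ℕ) + 1, by omega⟩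
    exact hs k (hgadj (hv.hS s) (hv.hS k) (hne s k (by simp only [k]; omega)) (hcl k)
      (hv.lef s k rfl (by simp only [k]; omega)) (hv.mat k))

end

theorem p1v (h1 : S_CAP1) : S_P1V := by
  intro V _ G l S L hE h hinj hadj
  have hl := hE.hl
  have hS : ∀ j, h j ∈ S := by
    intro j
    by_cases hj : (j : ℕ) + 1 < l
    · exact (hadj j ⟨j + 1, hj⟩ rfl).2.1
    · have hj' := j.isLt
      exact (hadj ⟨(j : ℕ) - 1, by omega⟩ j (by simp only; omega)).2.2.1
  have sk := skel1 (by omega) h hinj hS hadj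
  have key := h1 V G l S L hE l _ _ _ sk (by rw [skn1 (by omega)]; omega)
  rw [skn1 (by omega)] at key
  omega

theorem sub1 (h1 : S_CAP1) : S_SUB1 := by
  intro V _ G r S L hE x h i hx j h' hh'
  by_contra hn
  have hr : 3 ≤ r := by have := hE.hl; omega
  obtain ⟨hv, hcl⟩ : LV1 G S L x h (i : ℕ) ∧ ∀ j, Cl G (r + 1) S L (x j) := hx
  have hbri := hv.bri
  have hne : ∀ k, h k ≠ h' := fun k hk => hn ⟨k, hk⟩
  have cnt : ∀ b < r + 1, SkN (r + 2) (fun t : ℕ => if t = b then 0 else 1) 1 = 2 * r + 3 := by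
    intro b hb
    unfold SkN
    rw [show r + 2 - 1 = r + 1 by omega, sum_zero_one (r + 1) b hb]
    omega
  have fin : ∀ (g : Fin (r + 2) → V) (b : ℕ), b < r + 1 →
      Skel G (r + 1) S L g (fun t : ℕ => if t = b then 0 else 1) 1 → False := by
    intro g b hb sk
    have key := h1 V G (r + 1) S L hE (r + 2) _ _ _ sk (by rw [cnt b hb]; omega)
    rw [cnt b hb] at key
    omega
  have hj := j.isLt
  rcases Nat.lt_or_ge (i : ℕ) (j : ℕ) with hij | hij
  · refine fin _ (i : ℕ) (by omega) (skelI h hv.hinj hv.hS ((j : ℕ) + 1) (by omega) h' hh'.1 hn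
      (fun t : ℕ => if t = (i : ℕ) then 0 else 1) _ (lk1 hv hcl) ?_ ?_ ?_ ?_)
    · intro t _; rfl
    · intro t ht _
      rw [if_neg (by omega), if_neg (by omega)]
    · intro t ht
      have : t = j := Fin.ext (by omega)
      subst this
      refine Or.inr (Or.inl ⟨by rw [if_neg (by omega)], ?_⟩)
      exact hgadj (hv.hS t) hh'.1 (hne t) (hcl t) (hv.mat t) hh'.2
    · intro t ht
      refine Or.inr (Or.inl ⟨by rw [if_neg (by omega)], ?_⟩)
      exact hgadj hh'.1 (hv.hS t) (hne t).symm (hcl j) hh'.2 (hv.rig j t ht hij)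
  · refine fin _ ((i : ℕ) + 1) (by omega) (skelI h hv.hinj hv.hS (j : ℕ) (by omega) h' hh'.1 hn
      (fun t : ℕ => if t = (i : ℕ) then 0 else 1) _ (lk1 hv hcl) ?_ ?_ ?_ ?_)
    · intro t ht
      rw [if_neg (by omega), if_neg (by omega)]
    · intro t ht _
      by_cases h2 : t = (i : ℕ)
      · rw [if_pos (by omega), if_pos h2]
      · rw [if_neg (by omega), if_neg h2]
    · intro t ht
      refine Or.inr (Or.inl ⟨by rw [if_neg (by omega)], ?_⟩)
      exact hgadj (hv.hS t) hh'.1 (hne t) (hcl j) (hv.lef t j (by omega) hij) hh'.2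
    · intro t ht
      have : t = j := Fin.ext ht
      subst this
      refine Or.inr (Or.inl ⟨by rw [if_neg (by omega)], ?_⟩)
      exact hgadj hh'.1 (hv.hS t) (hne t).symm (hcl t) hh'.2 (hv.mat t)

/-- No path on four hubs. -/
theorem no4 (hP : S_P1V) {V : Type} [Fintype V] {G : SimpleGraph V} {S L : Set V}
    (hE : Env G 4 S L) {a b c d : V} (hab : (HG G 4 S L).Adj a b) (hbc : (HG G 4 S L).Adj b c)
    (hcd : (HG G 4 S L).Adj c d) (hac : a ≠ c) (had : a ≠ d) (hbd : b ≠ d) : False := by
  have e0 : a ≠ b := hab.ne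
  have e1 : b ≠ c := hbc.ne
  have e2 : c ≠ d := hcd.ne
  refine hP V G 4 S L hE ![a, b, c, d] ?_ ?_
  · intro i j hij
    fin_cases i <;> fin_cases j <;> simp_all
  · intro j k hjk
    fin_cases j <;> fin_cases k <;> simp_all

theorem dis (hP : S_P1V) : S_DIS := by
  intro V _ G S L hE a b c d hac had hbc hbd hab hcd hreach
  have key : ∀ w, (HG G 4 S L).Reachable a w →
      (w = a ∨ w = b ∨ (HG G 4 S L).Adj w a ∨ (HG G 4 S L).Adj w b) := by
    intro w hw
    rw [SimpleGraph.reachable_iff_reflTransGen] at hw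
    induction hw with
    | refl => exact Or.inl rfl
    | @tail w w' _ hs ih =>
      by_contra hcon
      push Not at hcon
      obtain ⟨n1, n2, n3, n4⟩ := hcon
      by_cases hwa : w = a
      · subst hwa; exact n3 hs.symm
      by_cases hwb : w = b
      · subst hwb; exact n4 hs.symm
      rcases ih with ih | ih | ih | ih
      · exact hwa ih
      · exact hwb ih
      · exact no4 hP hE hab.symm ih.symm hs (Ne.symm hwb) n2.symm n1.symm
      · exact no4 hP hE hab ih.symm hs (Ne.symm hwa) n1.symm n2.symm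
  rcases key c hreach with h | h | h | h
  · exact hac h.symm
  · exact hbc h.symm
  · exact no4 hP hE hab.symm h.symm hcd hbc hbd had
  · exact no4 hP hE hab h.symm hcd hac had hbd

theorem sg1 : S_SG1 := by
  intro V _ G r S L hE x h i hx j hj
  obtain ⟨hv, hcl⟩ : LV1 G S L x h (i : ℕ) ∧ ∀ j, Cl G (r + 1) S L (x j) := hx
  obtain ⟨_, ⟨v, hTy, hiso⟩, _⟩ := hj
  have hjT : h j ∈ Ty G S (x j) := mem_ty (hv.hS j) (hv.mat j)
  have hjv : h j = v := by
    rw [hTy] at hjT
    exact hjT
  refine ⟨by rw [hTy, hjv], ?_⟩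
  exact side1 hv hcl j (fun k => by rw [hjv]; exact hiso _)

theorem iso (h1 : S_CAP1) (h2 : S_CAP2) (hs : S_SUB1) : S_ISO := by
  intro V _ G r S L hE x h i hx s hs0
  have hr : 3 ≤ r := by have := hE.hl; omega
  have hsub := hs V G r S L hE x h i hx s
  obtain ⟨hv, hcl⟩ : LV1 G S L x h (i : ℕ) ∧ ∀ j, Cl G (r + 1) S L (x j) := hx
  have hside := side1 hv hcl s hs0
  have hsT : h s ∈ Ty G S (x s) := mem_ty (hv.hS s) (hv.mat s)
  have hTy : Ty G S (x s) = {h s} := by
    ext a
    rw [Set.mem_singleton_iff]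
    constructor
    · intro ha
      by_contra hne
      obtain ⟨k, hk⟩ := hsub ha
      apply hs0 k
      rw [hk]
      exact hgadj (hv.hS s) ha.1 (Ne.symm hne) (hcl s) (hv.mat s) ha.2
    · rintro rfl; exact hsT
  have hsk : Skel G (r + 1) S L h (fun t : ℕ => if t = (i : ℕ) then 0 else 1) 1 :=
    ⟨by omega, hv.hinj, hv.hS, lk1 hv hcl, Or.inl rfl⟩
  have hi := hv.bri
  refine ⟨hcl s, ⟨h s, hTy, ?_⟩, ?_⟩
  · intro w hw
    have hwS : w ∈ S := hw.2.2.1
    have hwn : w ∉ Set.range h := by
      rintro ⟨k, hk⟩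
      exact hs0 k (hk ▸ hw)
    have fin : ∀ (g : Fin (r + 2) → V) (b : ℕ), b < r + 1 →
        Skel G (r + 1) S L g (fun t : ℕ => if t = b then 0 else 1) 1 → False := by
      intro g b hb sk
      have e : SkN (r + 2) (fun t : ℕ => if t = b then 0 else 1) 1 = 2 * r + 3 := by
        unfold SkN
        rw [show r + 2 - 1 = r + 1 by omega, sum_zero_one (r + 1) b hb]
        omega
      have key := h1 V G (r + 1) S L hE (r + 2) _ _ _ sk (by rw [e]; omega)
      rw [e] at key
      omega
    rcases hside with ⟨hs1, hs2⟩ | ⟨hs1, hs2⟩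
    · refine fin _ 1 (by omega) (skelI h hv.hinj hv.hS 0 (by omega) w hwS hwn
        (fun t : ℕ => if t = (i : ℕ) then 0 else 1) _ (lk1 hv hcl) ?_ ?_ ?_ ?_)
      · intro t ht; omega
      · intro t _ _
        by_cases h3 : t = (i : ℕ)
        · rw [if_pos (by omega), if_pos h3]
        · rw [if_neg (by omega), if_neg h3]
      · intro t ht; omega
      · intro t ht
        have : t = s := Fin.ext (by omega)
        subst this
        exact Or.inr (Or.inl ⟨by simp, hw.symm⟩)
    · refine fin _ (i : ℕ) (by omega) (skelI h hv.hinj hv.hS (r + 1) (by omega) w hwS hwn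
        (fun t : ℕ => if t = (i : ℕ) then 0 else 1) _ (lk1 hv hcl) ?_ ?_ ?_ ?_)
      · intro t _; rfl
      · intro t h3 h4; omega
      · intro t ht
        have : t = s := Fin.ext (by omega)
        subst this
        exact Or.inr (Or.inl ⟨by rw [if_neg (by omega)], hw⟩)
      · intro t ht
        have := t.isLt
        omega
  · intro z hz
    have e1 : ∀ d, SkN (r + 1) (fun t : ℕ => if t = (i : ℕ) then 0 else 1) d =
        2 * r + d := by
      intro d
      unfold SkN
      rw [Nat.add_sub_cancel, sum_zero_one r i (by omega)]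
      omega
    rcases hside with ⟨hs1, hs2⟩ | ⟨hs1, hs2⟩
    · have key := h2 V G (r + 1) S L hE (r + 1) _ _ _ hsk (by
        intro t ht
        have : t = s := Fin.ext (by omega)
        subst this
        exact ⟨x t, z, hz, hsT⟩) (by rw [e1]; omega)
      rw [e1] at key
      omega
    · have hsk2 : Skel G (r + 1) S L h (fun t : ℕ => if t = (i : ℕ) then 0 else 1) 2 :=
        ⟨by omega, hv.hinj, hv.hS, lk1 hv hcl, Or.inr ⟨rfl, by
          intro t ht
          have : t = s := Fin.ext (by omega)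
          subst this
          exact ⟨x t, z, hz, hsT⟩⟩⟩
      have key := h1 V G (r + 1) S L hE (r + 1) _ _ _ hsk2 (by rw [e1]; omega)
      rw [e1] at key
      omega

theorem sge (h1 : S_CAP1) (h2 : S_CAP2) : S_SGE := by
  intro V _ G r S L hE
  have hr : 3 ≤ r := by have := hE.hl; omega
  constructor
  · intro y h hc j hj
    have hc : LVE G S L y h := hc
    obtain ⟨_, ⟨v, hTy, hiso⟩, hnp⟩ := hj
    obtain ⟨e', he1, -, -⟩ := hc.ex
    revert hTy hnp
    refine Fin.cases ?_ (fun s => ?_) j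
    · intro hnp _
      exact hnp e' he1
    · intro _ hTy
      have hsl := s.isLt
      have hsv : h s = v := by
        have : h s ∈ Ty G S (y s.succ) := mem_ty (hc.hS s) (hc.mat s)
        rw [hTy] at this
        exact this
      have hHG : ∀ j k : Fin r, (k : ℕ) = j + 1 → (HG G (r + 1) S L).Adj (h j) (h k) := by
        intro j k hjk
        have hne : h j ≠ h k := fun hh => by
          have := congrArg Fin.val (hc.hinj hh)
          omega
        exact hgadj (hc.hS j) (hc.hS k) hne (hc.ycl j.succ) (hc.mat j) (hc.rig j k hjk)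
      by_cases hs : (s : ℕ) + 1 < r
      · exact hiso _ (hsv ▸ hHG s ⟨(s : ℕ) + 1, hs⟩ rfl)
      · exact hiso _ (hsv ▸ (hHG ⟨(s : ℕ) - 1, by omega⟩ s (by simp only; omega)).symm)
  · intro y h a hc j hj
    have hc : LVM G S L y h (a : ℕ) := hc
    obtain ⟨_, ⟨v, hTy, hiso⟩, hnp⟩ := hj
    obtain ⟨z, he1, he2, he3, he4⟩ := hc.ex
    have hal := a.isLt
    have ha1 := hc.a1
    revert hTy hnp
    refine Fin.cases ?_ (fun s => ?_) j
    · intro hnp _
      exact hnp z he1
    · intro _ hTy
      have hsl := s.isLt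
      have hsv : h s = v := by
        have : h s ∈ Ty G S (y s.succ) := mem_ty (hc.hS s) (hc.mat s)
        rw [hTy] at this
        exact this
      have hHG : ∀ j k : Fin r, (k : ℕ) = j + 1 → (k : ℕ) ≠ a →
          (HG G (r + 1) S L).Adj (h j) (h k) := by
        intro j k hjk hka
        have hne : h j ≠ h k := fun hh => by
          have := congrArg Fin.val (hc.hinj hh)
          omega
        rcases Nat.lt_or_ge (k : ℕ) (a : ℕ) with hk | hk
        · exact hgadj (hc.hS j) (hc.hS k) hne (hc.ycl k.succ) (hc.lef j k hjk hk) (hc.mat k)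
        · exact hgadj (hc.hS j) (hc.hS k) hne (hc.ycl j.succ) (hc.mat j)
            (hc.rig j k hjk (by omega))
      have hlk : ∀ j k : Fin r, (k : ℕ) = j + 1 →
          Lk G (r + 1) S L ((fun i : ℕ => if i = (a : ℕ) - 1 then 2 else 1) j) (h j) (h k) := by
        intro j k hjk
        by_cases hk : (k : ℕ) = (a : ℕ)
        · have : (if (j : ℕ) = (a : ℕ) - 1 then 2 else 1) = 2 := by rw [if_pos (by omega)]
          refine Or.inr (Or.inr ⟨this, ?_⟩)
          exact ⟨y 0, z, he1, ⟨hc.hS j, he3 j (by omega)⟩, ⟨hc.hS k, he4 k hk⟩⟩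
        · have : (if (j : ℕ) = (a : ℕ) - 1 then 2 else 1) = 1 := by rw [if_neg (by omega)]
          exact Or.inr (Or.inl ⟨this, hHG j k hjk hk⟩)
      have cnt : ∀ d, SkN r (fun i : ℕ => if i = (a : ℕ) - 1 then 2 else 1) d = 2 * r + d := by
        intro d
        unfold SkN
        rw [sum_one_two (r - 1) _ (by omega)]
        omega
      -- the side of `s` is a single hub
      have c1 : (s : ℕ) + 1 < r → (s : ℕ) + 1 = a := by
        intro h3
        by_contra hne
        exact hiso _ (hsv ▸ hHG s ⟨(s : ℕ) + 1, h3⟩ rfl hne)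
      have c2 : 1 ≤ (s : ℕ) → (s : ℕ) = a := by
        intro h3
        by_contra hne
        exact hiso _ (hsv ▸ (hHG ⟨(s : ℕ) - 1, by omega⟩ s (by simp only; omega) hne).symm)
      rcases Nat.lt_or_ge (s : ℕ) 1 with hs | hs
      · have ha : (s : ℕ) + 1 = a := c1 (by omega)
        have sk : Skel G (r + 1) S L h (fun i : ℕ => if i = (a : ℕ) - 1 then 2 else 1) 1 :=
          ⟨by omega, hc.hinj, hc.hS, hlk, Or.inl rfl⟩
        have key := h2 V G (r + 1) S L hE r _ _ _ sk (by
          intro t ht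
          exact ⟨y 0, z, he1, mem_ty (hc.hS t) (he3 t (by omega))⟩) (by rw [cnt]; omega)
        rw [cnt] at key
        omega
      · have ha : (s : ℕ) = a := c2 hs
        have hsr : (s : ℕ) + 1 = r := by
          by_contra hne
          have := c1 (by omega)
          omega
        have sk : Skel G (r + 1) S L h (fun i : ℕ => if i = (a : ℕ) - 1 then 2 else 1) 2 :=
          ⟨by omega, hc.hinj, hc.hS, hlk, Or.inr ⟨rfl, by
            intro t ht
            exact ⟨z, y 0, clp_symm he1, mem_ty (hc.hS t) (he4 t (by omega))⟩⟩⟩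
        have key := h1 V G (r + 1) S L hE r _ _ _ sk (by rw [cnt]; omega)
        rw [cnt] at key
        omega

end Pool.Agent.Y388.PK
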